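import Mathlib

/-!
Covers for Hausdorff null sets, a Borel-Cantelli lemma and a slicing lemma.
-/

set_option autoImplicit false

open MeasureTheory Filter Set Topology
open scoped ENNReal NNReal

namespace Pool.Agent.Lib.MP_18f540_nt

/-- A set of Hausdorff measure zero has covers of arbitrarily small size. -/
theorem exists_cover {X : Type*} [EMetricSpace X] [MeasurableSpace X] [BorelSpace X]
    {d : ℝ} (hd : 0 < d) {s : Set X} (hs : μH[d] s = 0) {r ε : ℝ≥0∞} (hr : 0 < r) (hε : 0 < ε) :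
    ∃ t : ℕ → Set X, s ⊆ ⋃ n, t n ∧ (∀ n, Metric.ediam (t n) ≤ r) ∧
      ∑' n, Metric.ediam (t n) ^ d < ε := by
  rw [Measure.hausdorffMeasure_apply] at hs
  have h1 : (⨅ (t : ℕ → Set X) (_ : s ⊆ ⋃ n, t n) (_ : ∀ n, Metric.ediam (t n) ≤ r),
          ∑' n, ⨆ _ : (t n).Nonempty, Metric.ediam (t n) ^ d) = 0 := by
    refine le_antisymm (le_trans ?_ hs.le) bot_le
    exact le_iSup₂ (f := fun (r : ℝ≥0∞) (_ : 0 < r) =>
      ⨅ (t : ℕ → Set X) (_ : s ⊆ ⋃ n, t n) (_ : ∀ n, Metric.ediam (t n) ≤ r),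
          ∑' n, ⨆ _ : (t n).Nonempty, Metric.ediam (t n) ^ d) r hr
  have h2 : (⨅ (t : ℕ → Set X) (_ : s ⊆ ⋃ n, t n) (_ : ∀ n, Metric.ediam (t n) ≤ r),
          ∑' n, ⨆ _ : (t n).Nonempty, Metric.ediam (t n) ^ d) < ε := by rw [h1]; exact hε
  obtain ⟨t, ht⟩ := iInf_lt_iff.1 h2
  obtain ⟨ht1, ht⟩ := iInf_lt_iff.1 ht
  obtain ⟨ht2, ht⟩ := iInf_lt_iff.1 ht
  refine ⟨t, ht1, ht2, ?_⟩
  refine lt_of_eq_of_lt ?_ ht
  congr 1
  funext n
  rcases (t n).eq_empty_or_nonempty with h | h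
  · simp [h, ENNReal.zero_rpow_of_pos hd]
  · simp [h]

/-- Borel-Cantelli for Hausdorff measures. -/
theorem hausdorff_bc {X : Type*} [EMetricSpace X] [MeasurableSpace X] [BorelSpace X]
    {ι : Type*} [Countable ι] {d : ℝ} (hd : 0 < d) (f : ι → Set X)
    (hf : ∑' i, Metric.ediam (f i) ^ d ≠ ∞) :
    μH[d] {x | {i | x ∈ f i}.Infinite} = 0 := by
  classical
  set g : Finset ι → ℝ≥0∞ := fun F => ∑' i : {i // i ∉ F}, Metric.ediam (f i) ^ d with hg
  have hgt : Tendsto g atTop (𝓝 0) := ENNReal.tendsto_tsum_compl_atTop_zero hf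
  have h1 := Measure.hausdorffMeasure_le_liminf_tsum (X := X) (β := Finset ι)
    (ι := fun F => {i // i ∉ F}) d {x | {i | x ∈ f i}.Infinite} (l := atTop)
    (fun F => g F ^ (1 / d))
    (by
      have := (ENNReal.continuous_rpow_const (y := 1 / d)).tendsto 0
      rw [ENNReal.zero_rpow_of_pos (by positivity)] at this
      exact this.comp hgt)
    (fun F i => f i)
    (Eventually.of_forall fun F i => by
      have : Metric.ediam (f i) ^ d ≤ g F := ENNReal.le_tsum i
      calc Metric.ediam (f i) = (Metric.ediam (f i) ^ d) ^ (1 / d) := by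
            rw [← ENNReal.rpow_mul, mul_one_div_cancel hd.ne', ENNReal.rpow_one]
        _ ≤ g F ^ (1 / d) := ENNReal.rpow_le_rpow this (by positivity))
    (Eventually.of_forall fun F x hx => by
      obtain ⟨i, hi, hiF⟩ := (hx : {i | x ∈ f i}.Infinite).exists_notMem_finset F
      exact mem_iUnion.2 ⟨⟨i, hiF⟩, hi⟩)
  refine le_antisymm (h1.trans ?_) bot_le
  exact hgt.liminf_eq.le

/-- Slicing: almost every vertical slice of an `μH[1+d]`-null set of the plane is `μH[d]`-null. -/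
theorem slice_null {d : ℝ} (hd : 0 < d) {W : Set (ℝ × ℝ)} (hW : μH[1 + d] W = 0) :
    ∀ᵐ x : ℝ, μH[d] {y : ℝ | (x, y) ∈ W} = 0 := by
  have hex : ∀ n : ℕ, ∃ t : ℕ → Set (ℝ × ℝ), W ⊆ ⋃ i, t i ∧
      (∀ i, Metric.ediam (t i) ≤ (2 : ℝ≥0∞)⁻¹ ^ n) ∧
      ∑' i, Metric.ediam (t i) ^ (1 + d) < (2 : ℝ≥0∞)⁻¹ ^ n := by
    intro n
    have h0 : (0 : ℝ≥0∞) < (2 : ℝ≥0∞)⁻¹ ^ n := by
      rw [pos_iff_ne_zero]
      exact pow_ne_zero _ (by simp)
    exact exists_cover (by positivity) hW h0 h0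
  choose t ht1 ht2 ht3 using hex
  -- interval containing the projection
  have hB : ∀ n i, ∃ a : ℝ, (Prod.fst '' (t n i)) ⊆
      Metric.closedBall a (Metric.ediam (t n i)).toReal := by
    intro n i
    rcases (t n i).eq_empty_or_nonempty with h | ⟨p, hp⟩
    · exact ⟨0, by simp [h]⟩
    · refine ⟨p.1, ?_⟩
      rintro _ ⟨q, hq, rfl⟩
      rw [Metric.mem_closedBall]
      have hfin : Metric.ediam (t n i) ≠ ∞ :=
        ne_top_of_le_ne_top (by simp) (ht2 n i)
      have h1 : edist q p ≤ Metric.ediam (t n i) := Metric.edist_le_ediam_of_mem hq hp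
      have h2 : dist q p ≤ (Metric.ediam (t n i)).toReal := by
        rw [dist_edist]
        exact ENNReal.toReal_mono hfin h1
      exact le_trans (le_max_left _ _) h2
  choose a ha using hB
  set g : ℕ → ℝ → ℝ≥0∞ := fun n x => ∑' i,
    (Metric.closedBall (a n i) (Metric.ediam (t n i)).toReal).indicator
      (fun _ => Metric.ediam (t n i) ^ d) x with hg
  have hgm : ∀ n, Measurable (g n) := fun n =>
    Measurable.tsum fun i => (measurable_const.indicator Metric.isClosed_closedBall.measurableSet)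
  have hgi : ∀ n, ∫⁻ x, g n x ≤ 2 * (2 : ℝ≥0∞)⁻¹ ^ n := by
    intro n
    rw [lintegral_tsum fun i =>
      (measurable_const.indicator Metric.isClosed_closedBall.measurableSet).aemeasurable]
    have h1 : ∀ i, ∫⁻ x, (Metric.closedBall (a n i) (Metric.ediam (t n i)).toReal).indicator
        (fun _ => Metric.ediam (t n i) ^ d) x = 2 * Metric.ediam (t n i) ^ (1 + d) := by
      intro i
      have hfin : Metric.ediam (t n i) ≠ ∞ :=
        ne_top_of_le_ne_top (by simp) (ht2 n i)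
      rw [lintegral_indicator Metric.isClosed_closedBall.measurableSet, setLIntegral_const,
        Real.volume_closedBall, ENNReal.ofReal_mul (by norm_num), ENNReal.ofReal_toReal hfin,
        ENNReal.ofReal_ofNat]
      rw [ENNReal.rpow_add_of_nonneg _ _ (by norm_num) hd.le, ENNReal.rpow_one]
      ring
    simp_rw [h1]
    rw [ENNReal.tsum_mul_left]
    exact mul_le_mul_right (ht3 n).le _
  have hsum : ∫⁻ x, ∑' n, g n x ≠ ∞ := by
    rw [lintegral_tsum fun n => (hgm n).aemeasurable]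
    refine ne_top_of_le_ne_top ?_ (ENNReal.tsum_le_tsum hgi)
    rw [ENNReal.tsum_mul_left, ENNReal.tsum_geometric]
    exact ENNReal.mul_ne_top (by simp) (by simp)
  have hae := ae_lt_top (Measurable.tsum hgm) hsum
  filter_upwards [hae] with x hx
  have hgx : Tendsto (fun n => g n x) atTop (𝓝 0) := ENNReal.tendsto_atTop_zero_of_tsum_ne_top hx.ne
  have h1 := Measure.hausdorffMeasure_le_liminf_tsum (X := ℝ) (β := ℕ)
    (ι := fun _ => ℕ) d {y : ℝ | (x, y) ∈ W} (l := atTop)
    (fun n => (2 : ℝ≥0∞)⁻¹ ^ n)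
    (ENNReal.tendsto_pow_atTop_nhds_zero_of_lt_one (by simp))
    (fun n i => {y | (x, y) ∈ t n i})
    (Eventually.of_forall fun n i => by
      refine le_trans ?_ (ht2 n i)
      refine Metric.ediam_le fun y hy z hz => ?_
      have : edist y z ≤ edist ((x, y) : ℝ × ℝ) (x, z) := by
        rw [Prod.edist_eq]; exact le_max_right _ _
      exact this.trans (Metric.edist_le_ediam_of_mem hy hz))
    (Eventually.of_forall fun n y hy => by
      obtain ⟨i, hi⟩ := mem_iUnion.1 (ht1 n hy)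
      exact mem_iUnion.2 ⟨i, hi⟩)
  refine le_antisymm (h1.trans ?_) bot_le
  refine le_trans (liminf_le_liminf (v := fun n => g n x) (Eventually.of_forall fun n => ?_))
    hgx.liminf_eq.le
  refine ENNReal.tsum_le_tsum fun i => ?_
  rcases ({y | (x, y) ∈ t n i} : Set ℝ).eq_empty_or_nonempty with h | ⟨y, hy⟩
  · rw [h]; simp [ENNReal.zero_rpow_of_pos hd]
  · have hxB : x ∈ Metric.closedBall (a n i) (Metric.ediam (t n i)).toReal :=
      ha n i ⟨(x, y), hy, rfl⟩
    rw [indicator_of_mem hxB]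
    refine ENNReal.rpow_le_rpow ?_ hd.le
    refine Metric.ediam_le fun y hy z hz => ?_
    have : edist y z ≤ edist ((x, y) : ℝ × ℝ) (x, z) := by
      rw [Prod.edist_eq]; exact le_max_right _ _
    exact this.trans (Metric.edist_le_ediam_of_mem hy hz)

end Pool.Agent.Lib.MP_18f540_nt
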