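import Mathlib
import Pool.Agent.Lib.MP_18f540_nt.Cover

/-!
A lower bound for the Hausdorff dimension of limsup sets on the line.
-/

set_option autoImplicit false

open MeasureTheory Filter Set Topology
open scoped ENNReal NNReal

namespace Pool.Agent.Lib.MP_18f540_nt

theorem null_cover {σ : ℝ} (hσ : 0 < σ) (hσ1 : σ ≤ 1) {F : Set ℝ} (hF : μH[σ] F = 0)
    {ε : ℝ} (hε : 0 < ε) :
    ∃ a L : ℕ → ℝ, (∀ i, 0 < L i) ∧ (F ⊆ ⋃ i, Icc (a i - L i) (a i + L i)) ∧
      Summable (fun i => L i ^ σ) ∧ ∑' i, L i ^ σ < ε := by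
  obtain ⟨t, ht1, ht2, ht3⟩ := exists_cover hσ hF (r := 1) (ε := ENNReal.ofReal (ε / 2))
    (by simp) (by simpa using hε)
  set d : ℕ → ℝ := fun i => (Metric.ediam (t i)).toReal with hd
  have hdf : ∀ i, Metric.ediam (t i) ≠ ∞ := fun i => ne_top_of_le_ne_top (by simp) (ht2 i)
  have hd0 : ∀ i, 0 ≤ d i := fun i => ENNReal.toReal_nonneg
  have hdσ : ∀ i, Metric.ediam (t i) ^ σ = ENNReal.ofReal (d i ^ σ) := by
    intro i
    rw [← ENNReal.ofReal_rpow_of_nonneg (hd0 i) hσ.le, ENNReal.ofReal_toReal (hdf i)]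
  simp_rw [hdσ] at ht3
  have hsd : Summable fun i => d i ^ σ := by
    refine summable_of_sum_le (c := ε / 2) (fun i => by positivity) ?_
    intro u
    have h1 : ∑ i ∈ u, ENNReal.ofReal (d i ^ σ) ≤ ENNReal.ofReal (ε / 2) :=
      (ENNReal.sum_le_tsum u).trans ht3.le
    rw [← ENNReal.ofReal_sum_of_nonneg (fun i _ => by positivity)] at h1
    exact (ENNReal.ofReal_le_ofReal_iff (by positivity)).1 h1
  have hsd' : ∑' i, d i ^ σ ≤ ε / 2 := by
    rw [← ENNReal.ofReal_le_ofReal_iff (by positivity),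
      ENNReal.ofReal_tsum_of_nonneg (fun i => by positivity) hsd]
    exact ht3.le
  set η : ℕ → ℝ := fun i => (ε / 8 * (1 / 2) ^ i) ^ (1 / σ) with hη
  have hη0 : ∀ i, 0 < η i := fun i => by positivity
  have hησ : ∀ i, η i ^ σ = ε / 8 * (1 / 2) ^ i := by
    intro i
    simp only [hη]
    rw [← Real.rpow_mul (by positivity), one_div_mul_cancel hσ.ne', Real.rpow_one]
  have hsη : Summable fun i => η i ^ σ := by
    simp_rw [hησ]
    exact (summable_geometric_of_lt_one (by norm_num) (by norm_num)).mul_left _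
  have hsη' : ∑' i, η i ^ σ = ε / 4 := by
    simp_rw [hησ]
    rw [tsum_mul_left, tsum_geometric_of_lt_one (by norm_num) (by norm_num)]
    ring
  have hle : ∀ i, (d i + η i) ^ σ ≤ d i ^ σ + η i ^ σ := fun i =>
    Real.rpow_add_le_add_rpow (hd0 i) (hη0 i).le hσ.le hσ1
  have hpos : ∀ i, ∃ x : ℝ, t i ⊆ Icc (x - (d i + η i)) (x + (d i + η i)) := by
    intro i
    rcases (t i).eq_empty_or_nonempty with h | ⟨x, hx⟩
    · exact ⟨0, by simp [h]⟩
    · refine ⟨x, fun y hy => ?_⟩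
      have h1 : edist y x ≤ Metric.ediam (t i) := Metric.edist_le_ediam_of_mem hy hx
      have h2 : dist y x ≤ d i := by
        rw [dist_edist]
        exact ENNReal.toReal_mono (hdf i) h1
      rw [Real.dist_eq, abs_le] at h2
      have := hη0 i
      constructor <;> linarith [h2.1, h2.2]
  choose a ha using hpos
  refine ⟨a, fun i => d i + η i, fun i => add_pos_of_nonneg_of_pos (hd0 i) (hη0 i), ?_, ?_, ?_⟩
  · exact ht1.trans (iUnion_mono ha)
  · exact Summable.of_nonneg_of_le (fun i => Real.rpow_nonneg (add_nonneg (hd0 i) (hη0 i).le) _) hle (hsd.add hsη)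
  · calc ∑' i, (d i + η i) ^ σ ≤ ∑' i, (d i ^ σ + η i ^ σ) :=
        (Summable.of_nonneg_of_le (fun i => Real.rpow_nonneg (add_nonneg (hd0 i) (hη0 i).le) _) hle
          (hsd.add hsη)).tsum_le_tsum hle (hsd.add hsη)
      _ = ∑' i, d i ^ σ + ∑' i, η i ^ σ := hsd.tsum_add hsη
      _ ≤ ε / 2 + ε / 4 := by rw [hsη']; linarith
      _ < ε := by linarith

/-- The part of the cover meeting `[x, y]`, weighted. -/
noncomputable def pot (σ : ℝ) (a L : ℕ → ℝ) (x y : ℝ) : ℝ :=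
  ∑' i, {i | (Icc (a i - L i) (a i + L i) ∩ Icc x y).Nonempty}.indicator (fun i => L i ^ σ) i

theorem count_le {δ u v : ℝ} (hδ : 0 < δ) (Y : Finset ℝ)
    (hY : ∀ y ∈ Y, ∀ y' ∈ Y, y ≠ y' → δ ≤ |y - y'|) (huv : u ≤ v) :
    ((Y.filter fun y => u ≤ y ∧ y ≤ v).card : ℝ) ≤ (v - u) / δ + 1 := by
  classical
  -- the map y ↦ ⌊(y-u)/δ⌋ is injective into {0,…,⌊(v-u)/δ⌋}
  have h1 : (Y.filter fun y => u ≤ y ∧ y ≤ v).card ≤ (Finset.range (⌊(v - u) / δ⌋₊ + 1)).card := by
    refine Finset.card_le_card_of_injOn (fun y => ⌊(y - u) / δ⌋₊) ?_ ?_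
    · intro y hy
      simp only [Finset.coe_filter, mem_ofPred_eq] at hy
      simp only [Finset.coe_range, mem_Iio]
      exact Nat.lt_succ_of_le (Nat.floor_le_floor (by gcongr; exact hy.2.2))
    · intro y hy z hz hyz
      simp only [Finset.coe_filter, mem_ofPred_eq] at hy hz
      by_contra hne
      have h2 := hY y hy.1 z hz.1 hne
      have hy0 : 0 ≤ (y - u) / δ := div_nonneg (by linarith [hy.2.1]) hδ.le
      have hz0 : 0 ≤ (z - u) / δ := div_nonneg (by linarith [hz.2.1]) hδ.le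
      have e1 := Nat.floor_le hy0
      have e2 := Nat.lt_floor_add_one ((y - u) / δ)
      have e3 := Nat.floor_le hz0
      have e4 := Nat.lt_floor_add_one ((z - u) / δ)
      simp only at hyz
      rw [hyz] at e1 e2
      have h3 : |(y - u) / δ - (z - u) / δ| < 1 := by
        rw [abs_lt]; constructor <;> linarith
      rw [← sub_div, abs_div, abs_of_pos hδ, div_lt_one hδ] at h3
      have : y - u - (z - u) = y - z := by ring
      rw [this] at h3
      linarith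
  have h2 : ((⌊(v - u) / δ⌋₊ : ℕ) : ℝ) ≤ (v - u) / δ := Nat.floor_le (div_nonneg (by linarith) hδ.le)
  calc ((Y.filter fun y => u ≤ y ∧ y ≤ v).card : ℝ)
      ≤ ((Finset.range (⌊(v - u) / δ⌋₊ + 1)).card : ℝ) := by exact_mod_cast h1
    _ = (⌊(v - u) / δ⌋₊ : ℝ) + 1 := by simp
    _ ≤ (v - u) / δ + 1 := by linarith

theorem pot_summable {σ : ℝ} {a L : ℕ → ℝ} (hs : Summable fun i => L i ^ σ) (x y : ℝ) :
    Summable fun i => {i | (Icc (a i - L i) (a i + L i) ∩ Icc x y).Nonempty}.indicator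
      (fun i => L i ^ σ) i :=
  hs.indicator _

theorem step {σ c₀ θ : ℝ} (hσ : 0 < σ) (hσ1 : σ < 1) (hc : 0 < c₀) (hθ : 0 < θ)
    (hθc : 10 * θ ^ (1 / σ) ≤ c₀) {a L : ℕ → ℝ} (hL : ∀ i, 0 < L i)
    (hs : Summable fun i => L i ^ σ) {x y δ r : ℝ} (hxy : x < y)
    (hP : pot σ a L x y ≤ θ * (y - x) ^ σ) (hδ : 0 < δ) (hr : 0 < r) (hrδ : r ≤ δ)
    (hK : 10 / c₀ * (y - x) ^ (σ - 1) * δ ≤ r ^ σ) (Y : Finset ℝ)
    (hcard : c₀ * (y - x) ≤ δ * Y.card)
    (hsep : ∀ z ∈ Y, ∀ z' ∈ Y, z ≠ z' → δ ≤ |z - z'|)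
    (hin : ∀ z ∈ Y, Icc (z - r) (z + r) ⊆ Icc x y) :
    ∃ z ∈ Y, pot σ a L (z - r) (z + r) ≤ θ * (2 * r) ^ σ := by
  classical
  set ℓ := y - x with hℓ
  have hℓ0 : 0 < ℓ := by linarith
  set S : Set ℕ := {i | (Icc (a i - L i) (a i + L i) ∩ Icc x y).Nonempty} with hS
  set J : ℝ → Set ℕ := fun z => {i | (Icc (a i - L i) (a i + L i) ∩ Icc (z - r) (z + r)).Nonempty}
    with hJ
  have hJS : ∀ z ∈ Y, J z ⊆ S := fun z hz i hi => hi.mono (inter_subset_inter_right _ (hin z hz))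
  have hpotS : pot σ a L x y = ∑' i, S.indicator (fun i => L i ^ σ) i := rfl
  have hsumS : Summable fun i => S.indicator (fun i => L i ^ σ) i := hs.indicator _
  have hnn : ∀ i, 0 ≤ S.indicator (fun i => L i ^ σ) i := fun i =>
    indicator_nonneg (fun i _ => by have := (hL i).le; positivity) i
  -- members of S are short
  have hshort : ∀ i ∈ S, L i ≤ θ ^ (1 / σ) * ℓ := by
    intro i hi
    have h1 : L i ^ σ ≤ θ * ℓ ^ σ := by
      refine le_trans ?_ hP
      rw [hpotS]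
      have := hsumS.le_tsum i (fun j _ => hnn j)
      rwa [indicator_of_mem hi] at this
    have h2 : (L i ^ σ) ^ (1 / σ) ≤ (θ * ℓ ^ σ) ^ (1 / σ) :=
      Real.rpow_le_rpow (by have := (hL i).le; positivity) h1 (by positivity)
    rw [Real.mul_rpow hθ.le (by positivity), ← Real.rpow_mul (hL i).le, ← Real.rpow_mul hℓ0.le,
      mul_one_div_cancel hσ.ne', Real.rpow_one, Real.rpow_one] at h2
    exact h2
  -- the big members
  have hfin : {i | δ ≤ L i}.Finite := by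
    have h1 := hs.tendsto_cofinite_zero
    have h2 : ∀ᶠ i in cofinite, L i ^ σ < δ ^ σ := h1.eventually (gt_mem_nhds (by positivity))
    rw [eventually_cofinite] at h2
    refine h2.subset fun i hi => ?_
    simp only [mem_ofPred_eq, not_lt]
    exact Real.rpow_le_rpow hδ.le hi hσ.le
  set B : Finset ℕ := hfin.toFinset.filter (· ∈ S) with hB
  have hBmem : ∀ i, i ∈ B ↔ δ ≤ L i ∧ i ∈ S := by
    intro i; simp [hB]
  have hsumB : ∑ i ∈ B, L i ≤ θ ^ (1 / σ) * ℓ := by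
    have h1 : ∀ i ∈ B, L i ≤ (θ ^ (1 / σ) * ℓ) ^ (1 - σ) * L i ^ σ := by
      intro i hi
      have h2 : L i = L i ^ (1 - σ) * L i ^ σ := by
        rw [← Real.rpow_add (hL i)]; simp
      conv_lhs => rw [h2]
      refine mul_le_mul_of_nonneg_right ?_ (by have := (hL i).le; positivity)
      exact Real.rpow_le_rpow (hL i).le (hshort i ((hBmem i).1 hi).2) (by linarith)
    have h3 : ∑ i ∈ B, L i ^ σ ≤ θ * ℓ ^ σ := by
      refine le_trans ?_ hP
      rw [hpotS]
      have := hsumS.sum_le_tsum B (fun j _ => hnn j)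
      refine le_trans (le_of_eq ?_) this
      refine Finset.sum_congr rfl fun i hi => ?_
      rw [indicator_of_mem ((hBmem i).1 hi).2]
    calc ∑ i ∈ B, L i ≤ ∑ i ∈ B, (θ ^ (1 / σ) * ℓ) ^ (1 - σ) * L i ^ σ := Finset.sum_le_sum h1
      _ = (θ ^ (1 / σ) * ℓ) ^ (1 - σ) * ∑ i ∈ B, L i ^ σ := by rw [Finset.mul_sum]
      _ ≤ (θ ^ (1 / σ) * ℓ) ^ (1 - σ) * (θ * ℓ ^ σ) := by gcongr
      _ = (θ ^ (1 / σ) * ℓ) ^ (1 - σ) * (θ ^ (1 / σ) * ℓ) ^ σ := by
          congr 1
          rw [Real.mul_rpow (by positivity) hℓ0.le, ← Real.rpow_mul hθ.le,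
            one_div_mul_cancel hσ.ne', Real.rpow_one]
      _ = θ ^ (1 / σ) * ℓ := by
          rw [← Real.rpow_add (by positivity)]; simp
  -- the good points
  set Y' : Finset ℝ := Y.filter fun z => ∀ i ∈ B, i ∉ J z with hY'
  have hhit : ∀ i z, i ∈ J z → a i - L i - r ≤ z ∧ z ≤ a i + L i + r := by
    rintro i z ⟨w, hw1, hw2⟩
    constructor <;> linarith [hw1.1, hw1.2, hw2.1, hw2.2]
  have hcount : ∀ i, (((Y.filter fun z => i ∈ J z)).card : ℝ) ≤ (2 * L i + 2 * r) / δ + 1 := by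
    intro i
    have h1 : (Y.filter fun z => i ∈ J z) ⊆
        (Y.filter fun z => a i - L i - r ≤ z ∧ z ≤ a i + L i + r) := by
      intro z hz
      rw [Finset.mem_filter] at hz ⊢
      exact ⟨hz.1, hhit i z hz.2⟩
    have h2 := count_le hδ Y hsep (u := a i - L i - r) (v := a i + L i + r)
      (by linarith [hL i])
    have h3 : ((Y.filter fun z => i ∈ J z).card : ℝ) ≤
        ((Y.filter fun z => a i - L i - r ≤ z ∧ z ≤ a i + L i + r).card : ℝ) := by
      exact_mod_cast Finset.card_le_card h1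
    refine h3.trans (h2.trans (le_of_eq ?_))
    congr 2; ring
  have hbad : ((Y \ Y').card : ℝ) ≤ 5 * θ ^ (1 / σ) * ℓ / δ := by
    have h1 : Y \ Y' ⊆ B.biUnion fun i => Y.filter fun z => i ∈ J z := by
      intro z hz
      rw [Finset.mem_sdiff, hY', Finset.mem_filter] at hz
      rw [Finset.mem_biUnion]
      have h2 : ¬ ∀ i ∈ B, i ∉ J z := fun h => hz.2 ⟨hz.1, h⟩
      push Not at h2
      obtain ⟨i, hi, hij⟩ := h2
      exact ⟨i, hi, Finset.mem_filter.2 ⟨hz.1, hij⟩⟩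
    calc ((Y \ Y').card : ℝ) ≤ ((B.biUnion fun i => Y.filter fun z => i ∈ J z).card : ℝ) := by
          exact_mod_cast Finset.card_le_card h1
      _ ≤ ((∑ i ∈ B, (Y.filter fun z => i ∈ J z).card : ℕ) : ℝ) := by
          exact_mod_cast Finset.card_biUnion_le
      _ = ∑ i ∈ B, ((Y.filter fun z => i ∈ J z).card : ℝ) := by push_cast; rfl
      _ ≤ ∑ i ∈ B, 5 / δ * L i := by
          refine Finset.sum_le_sum fun i hi => (hcount i).trans ?_
          have hLi := ((hBmem i).1 hi).1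
          have h3 : (1 : ℝ) ≤ L i / δ := by rw [le_div_iff₀ hδ]; linarith
          have h4 : (2 * L i + 2 * r) / δ ≤ 4 * L i / δ := by
            gcongr; linarith
          calc (2 * L i + 2 * r) / δ + 1 ≤ 4 * L i / δ + L i / δ := add_le_add h4 h3
            _ = 5 / δ * L i := by ring
      _ = 5 / δ * ∑ i ∈ B, L i := by rw [Finset.mul_sum]
      _ ≤ 5 / δ * (θ ^ (1 / σ) * ℓ) := by gcongr
      _ = 5 * θ ^ (1 / σ) * ℓ / δ := by ring
  have hYcard : c₀ * ℓ / δ ≤ Y.card := by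
    rw [div_le_iff₀ hδ]; linarith
  have hY'card : c₀ * ℓ / (2 * δ) ≤ Y'.card := by
    have h1 : ((Y \ Y').card : ℝ) + Y'.card = Y.card := by
      have := Finset.card_sdiff_add_card_eq_card (Finset.filter_subset (fun z => ∀ i ∈ B, i ∉ J z) Y)
      exact_mod_cast this
    have h2 : 5 * θ ^ (1 / σ) * ℓ / δ ≤ c₀ * ℓ / (2 * δ) := by
      rw [div_le_div_iff₀ hδ (by positivity)]
      have : 0 < ℓ * δ := by positivity
      nlinarith
    have h3 : c₀ * ℓ / δ = c₀ * ℓ / (2 * δ) + c₀ * ℓ / (2 * δ) := by field_simp; ring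
    linarith
  -- averaging
  by_contra hcon
  push Not at hcon
  have hY'sub : Y' ⊆ Y := Finset.filter_subset _ _
  have hlow : (c₀ * ℓ / (2 * δ)) * (θ * (2 * r) ^ σ) < ∑ z ∈ Y', pot σ a L (z - r) (z + r) := by
    have hne : Y'.Nonempty := by
      rw [← Finset.card_pos]
      have : (0 : ℝ) < Y'.card := lt_of_lt_of_le (by positivity) hY'card
      exact_mod_cast this
    calc (c₀ * ℓ / (2 * δ)) * (θ * (2 * r) ^ σ) ≤ Y'.card * (θ * (2 * r) ^ σ) := by gcongr
      _ = ∑ z ∈ Y', θ * (2 * r) ^ σ := by simp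
      _ < _ := Finset.sum_lt_sum_of_nonempty hne fun z hz => hcon z (hY'sub hz)
  have hup : ∑ z ∈ Y', pot σ a L (z - r) (z + r) ≤ 5 * (θ * ℓ ^ σ) := by
    have h1 : ∑ z ∈ Y', pot σ a L (z - r) (z + r) =
        ∑' i, ∑ z ∈ Y', (J z).indicator (fun i => L i ^ σ) i := by
      rw [Summable.tsum_finsetSum (fun z _ => hs.indicator (J z))]
      rfl
    rw [h1]
    have h2 : ∀ i, ∑ z ∈ Y', (J z).indicator (fun i => L i ^ σ) i ≤
        5 * S.indicator (fun i => L i ^ σ) i := by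
      intro i
      have hLσ : 0 ≤ L i ^ σ := by have := (hL i).le; positivity
      have h3 : ∑ z ∈ Y', (J z).indicator (fun i => L i ^ σ) i =
          ((Y'.filter fun z => i ∈ J z).card : ℝ) * L i ^ σ := by
        rw [Finset.card_filter, Nat.cast_sum, Finset.sum_mul]
        refine Finset.sum_congr rfl fun z _ => ?_
        by_cases hz : i ∈ J z <;> simp [hz]
      rw [h3]
      rcases (Y'.filter fun z => i ∈ J z).eq_empty_or_nonempty with he | ⟨z, hz⟩
      · rw [he]; simp only [Finset.card_empty, Nat.cast_zero, zero_mul]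
        have := hnn i
        positivity
      · rw [Finset.mem_filter, hY', Finset.mem_filter] at hz
        have hiS : i ∈ S := hJS z hz.1.1 hz.2
        have hiB : i ∉ B := fun h => hz.1.2 i h hz.2
        have hLi : L i < δ := by
          by_contra h
          exact hiB ((hBmem i).2 ⟨not_lt.1 h, hiS⟩)
        rw [indicator_of_mem hiS]
        refine mul_le_mul_of_nonneg_right ?_ hLσ
        have h4 : ((Y'.filter fun z => i ∈ J z).card : ℝ) ≤
            ((Y.filter fun z => i ∈ J z).card : ℝ) := by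
          exact_mod_cast Finset.card_le_card (Finset.filter_subset_filter _ hY'sub)
        refine h4.trans ((hcount i).trans ?_)
        have : (2 * L i + 2 * r) / δ ≤ 4 := by
          rw [div_le_iff₀ hδ]; linarith
        linarith
    have h5 : Summable fun i => ∑ z ∈ Y', (J z).indicator (fun i => L i ^ σ) i :=
      summable_sum fun z _ => hs.indicator (J z)
    calc ∑' i, ∑ z ∈ Y', (J z).indicator (fun i => L i ^ σ) i
        ≤ ∑' i, 5 * S.indicator (fun i => L i ^ σ) i := h5.tsum_le_tsum h2 (hsumS.mul_left 5)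
      _ = 5 * pot σ a L x y := by rw [tsum_mul_left, hpotS]
      _ ≤ 5 * (θ * ℓ ^ σ) := by gcongr
  have hfinal : 5 * (θ * ℓ ^ σ) ≤ (c₀ * ℓ / (2 * δ)) * (θ * (2 * r) ^ σ) := by
    have h1 : r ^ σ ≤ (2 * r) ^ σ := Real.rpow_le_rpow hr.le (by linarith) hσ.le
    have h2 : ℓ ^ (σ - 1) * ℓ = ℓ ^ σ := by
      rw [← Real.rpow_add_one hℓ0.ne']; congr 1; ring
    calc 5 * (θ * ℓ ^ σ) = (c₀ * ℓ / (2 * δ)) * (θ * (10 / c₀ * ℓ ^ (σ - 1) * δ)) := by
          rw [← h2]; field_simp; ring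
      _ ≤ (c₀ * ℓ / (2 * δ)) * (θ * (2 * r) ^ σ) := by gcongr; exact hK.trans h1
  linarith

/-- If every interval contains, at infinitely many levels, a positive proportion of well separated
short intervals of the family `G m`, with radius `r` such that `r ^ σ` is much larger than the
spacing `δ`, then the limsup set of the family has positive `σ`-dimensional Hausdorff measure. -/
theorem hausdorffMeasure_limsup_ne_zero {σ c₀ : ℝ} (hσ : 0 < σ) (hσ1 : σ < 1) (hc : 0 < c₀)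
    (G : ℕ → Set ℝ)
    (H : ∀ x y : ℝ, 0 ≤ x → x < y → y ≤ 1 → ∀ n : ℕ, ∀ K : ℝ, 0 < K → ∃ m ≥ n, ∃ δ r : ℝ,
      0 < δ ∧ 0 < r ∧ r ≤ δ ∧ r ≤ (y - x) / 4 ∧ K * δ ≤ r ^ σ ∧ ∃ Y : Finset ℝ,
      c₀ * (y - x) ≤ δ * Y.card ∧ (∀ z ∈ Y, ∀ z' ∈ Y, z ≠ z' → δ ≤ |z - z'|) ∧
      ∀ z ∈ Y, Icc (z - r) (z + r) ⊆ Icc x y ∩ G m) :
    μH[σ] {t : ℝ | ∃ᶠ m in atTop, t ∈ G m} ≠ 0 := by
  intro h0
  set θ : ℝ := (c₀ / 10) ^ σ with hθ
  have hθ0 : 0 < θ := by positivity
  have hθc : 10 * θ ^ (1 / σ) ≤ c₀ := by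
    rw [hθ, ← Real.rpow_mul (by positivity), mul_one_div_cancel hσ.ne', Real.rpow_one]
    linarith
  obtain ⟨a, L, hL, hcov, hs, hsum⟩ := null_cover hσ hσ1.le h0 hθ0
  have hinit : pot σ a L 0 1 ≤ θ * (1 - 0) ^ σ := by
    rw [sub_zero, Real.one_rpow, mul_one]
    refine le_trans ?_ hsum.le
    refine (hs.indicator _).tsum_le_tsum (fun i => ?_) hs
    exact indicator_le_self' (fun _ _ => Real.rpow_nonneg (hL _).le _) _
  let St := {p : ℝ × ℝ // 0 ≤ p.1 ∧ p.1 < p.2 ∧ p.2 ≤ 1 ∧ pot σ a L p.1 p.2 ≤ θ * (p.2 - p.1) ^ σ}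
  have hstep : ∀ (n : ℕ) (p : St), ∃ q : St, Icc q.1.1 q.1.2 ⊆ Icc p.1.1 p.1.2 ∧
      (∃ m ≥ n, Icc q.1.1 q.1.2 ⊆ G m) ∧ q.1.2 - q.1.1 ≤ (p.1.2 - p.1.1) / 2 := by
    rintro n ⟨⟨x, y⟩, hx, hxy, hy, hP⟩
    simp only at hx hxy hy hP
    obtain ⟨m, hm, δ, r, hδ, hr, hrδ, hr4, hK, Y, hcard, hsep, hin⟩ :=
      H x y hx hxy hy n (10 / c₀ * (y - x) ^ (σ - 1)) (by
        have : 0 < y - x := by linarith
        positivity)
    obtain ⟨z, hz, hpot⟩ := step hσ hσ1 hc hθ0 hθc hL hs hxy hP hδ hr hrδ hK Y hcard hsep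
      (fun z hz => (hin z hz).trans inter_subset_left)
    have hz1 : z - r ∈ Icc x y := (hin z hz (left_mem_Icc.2 (by linarith))).1
    have hz2 : z + r ∈ Icc x y := (hin z hz (right_mem_Icc.2 (by linarith))).1
    refine ⟨⟨(z - r, z + r), by linarith [hz1.1], by simp only; linarith, by linarith [hz2.2], ?_⟩,
      (hin z hz).trans inter_subset_left, ⟨m, hm, (hin z hz).trans inter_subset_right⟩, ?_⟩
    · simp only
      have : z + r - (z - r) = 2 * r := by ring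
      rw [this]; exact hpot
    · simp only
      linarith
  choose next hn1 hn2 hn3 using hstep
  let s : ℕ → St := fun n => Nat.rec ⟨(0, 1), by norm_num, by norm_num, by norm_num, hinit⟩
    (fun n p => next n p) n
  have hs0 : (s 0).1 = (0, 1) := rfl
  have hsucc : ∀ n, s (n + 1) = next n (s n) := fun n => rfl
  have hlen : ∀ n, (s n).1.2 - (s n).1.1 ≤ (1 / 2) ^ n := by
    intro n
    induction n with
    | zero => rw [hs0]; norm_num
    | succ n ih =>
      rw [hsucc]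
      refine (hn3 n (s n)).trans ?_
      rw [pow_succ]; linarith
  obtain ⟨t, ht⟩ := IsCompact.nonempty_iInter_of_sequence_nonempty_isCompact_isClosed
    (fun n => Icc (s n).1.1 (s n).1.2) (fun n => by simp only [hsucc]; exact hn1 n (s n))
    (fun n => nonempty_Icc.2 (s n).2.2.1.le) isCompact_Icc (fun n => isClosed_Icc)
  have ht' : ∀ n, t ∈ Icc (s n).1.1 (s n).1.2 := fun n => mem_iInter.1 ht n
  have htF : t ∈ {t : ℝ | ∃ᶠ m in atTop, t ∈ G m} := by
    refine frequently_atTop.2 fun n => ?_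
    obtain ⟨m, hm, hG⟩ := hn2 n (s n)
    exact ⟨m, hm, hG (by rw [← hsucc]; exact ht' (n + 1))⟩
  obtain ⟨i, hi⟩ := mem_iUnion.1 (hcov htF)
  have hbound : ∀ n, L i ^ σ ≤ θ * ((1 / 2) ^ n : ℝ) ^ σ := by
    intro n
    have h1 : L i ^ σ ≤ pot σ a L (s n).1.1 (s n).1.2 := by
      have h2 := (pot_summable (a := a) hs (s n).1.1 (s n).1.2).le_tsum i (fun j _ =>
        indicator_nonneg (fun j _ => Real.rpow_nonneg (hL j).le _) j)
      rw [indicator_of_mem] at h2
      · exact h2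
      · exact ⟨t, hi, ht' n⟩
    refine h1.trans ((s n).2.2.2.2.trans ?_)
    have h3 : 0 ≤ (s n).1.2 - (s n).1.1 := by linarith [(s n).2.2.1]
    gcongr
    exact hlen n
  have hlim : Tendsto (fun n : ℕ => θ * ((1 / 2) ^ n : ℝ) ^ σ) atTop (𝓝 (θ * 0)) := by
    refine Tendsto.const_mul _ ?_
    have h1 : Tendsto (fun n : ℕ => ((1 / 2) ^ n : ℝ)) atTop (𝓝 0) :=
      tendsto_pow_atTop_nhds_zero_of_lt_one (by norm_num) (by norm_num)
    have h2 := h1.rpow_const (p := σ) (Or.inr hσ.le)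
    rwa [Real.zero_rpow hσ.ne'] at h2
  have h4 : L i ^ σ ≤ θ * 0 := ge_of_tendsto' hlim hbound
  have h5 : 0 < L i ^ σ := Real.rpow_pos_of_pos (hL i) _
  linarith

end Pool.Agent.Lib.MP_18f540_nt
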