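import Mathlib
import Pool.Agent.Lib.MP_18f540_nt.Nested

/-!
Distribution of the points `-(pξ+r)/q` for almost every `ξ` (pigeonhole principle).
-/

set_option autoImplicit false

open MeasureTheory Filter Set Topology
open scoped ENNReal NNReal

namespace Pool.Agent.Lib.MP_18f540_nt

theorem dirichlet (ξ η : ℝ) (N : ℕ) (hN : 1 ≤ N) :
    ∃ p q r : ℤ, 0 ≤ q ∧ (q = 0 → p ≠ 0) ∧ |p| ≤ N ∧ q ≤ N ∧
      |(p : ℝ) * ξ + q * η + r| < 1 / (N : ℝ) ^ 2 := by
  classical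
  have hN0 : (0 : ℝ) < (N : ℝ) ^ 2 := by positivity
  -- first without the sign normalisation
  obtain ⟨p, q, r, hpq, hp, hq, h⟩ : ∃ p q r : ℤ, (q = 0 → p ≠ 0) ∧ |p| ≤ N ∧ |q| ≤ N ∧
      |(p : ℝ) * ξ + q * η + r| < 1 / (N : ℝ) ^ 2 := by
    obtain ⟨⟨i, j⟩, -, ⟨i', j'⟩, -, hne, heq⟩ := Finset.exists_ne_map_eq_of_card_lt_of_maps_to
      (s := (Finset.univ : Finset (Fin (N + 1) × Fin (N + 1)))) (t := Finset.range (N ^ 2))
      (f := fun x => ⌊(N : ℝ) ^ 2 * Int.fract ((x.1 : ℕ) * ξ + (x.2 : ℕ) * η)⌋₊)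
      (by simp only [Finset.card_range, Finset.card_univ, Fintype.card_prod, Fintype.card_fin]
          nlinarith)
      (by
        intro x _
        simp only [Finset.coe_range, mem_Iio]
        rw [Nat.floor_lt (by have := Int.fract_nonneg ((x.1 : ℕ) * ξ + (x.2 : ℕ) * η); positivity)]
        push_cast
        have := Int.fract_lt_one ((x.1 : ℕ) * ξ + (x.2 : ℕ) * η)
        nlinarith)
    set u := Int.fract ((i : ℕ) * ξ + (j : ℕ) * η) with hu
    set u' := Int.fract ((i' : ℕ) * ξ + (j' : ℕ) * η) with hu'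
    have hu0 : 0 ≤ u := Int.fract_nonneg _
    have hu0' : 0 ≤ u' := Int.fract_nonneg _
    have e1 := Nat.floor_le (a := (N : ℝ) ^ 2 * u) (by positivity)
    have e2 := Nat.lt_floor_add_one ((N : ℝ) ^ 2 * u)
    have e3 := Nat.floor_le (a := (N : ℝ) ^ 2 * u') (by positivity)
    have e4 := Nat.lt_floor_add_one ((N : ℝ) ^ 2 * u')
    rw [heq] at e1 e2
    have h3 : |u - u'| < 1 / (N : ℝ) ^ 2 := by
      rw [lt_div_iff₀ hN0, ← abs_of_pos hN0, ← abs_mul, abs_lt]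
      constructor <;> nlinarith
    refine ⟨(i : ℕ) - (i' : ℕ), (j : ℕ) - (j' : ℕ),
      ⌊((i' : ℕ) * ξ + (j' : ℕ) * η)⌋ - ⌊((i : ℕ) * ξ + (j : ℕ) * η)⌋, ?_, ?_, ?_, ?_⟩
    · intro hq hp
      apply hne
      have h1 : (i : ℕ) = i' := by omega
      have h2 : (j : ℕ) = j' := by omega
      rw [Prod.mk.injEq]
      exact ⟨Fin.ext h1, Fin.ext h2⟩
    · have := i.2; have := i'.2; rw [abs_le]; omega
    · have := j.2; have := j'.2; rw [abs_le]; omega
    · have h4 : u - u' = (((i : ℕ) - (i' : ℕ) : ℤ) : ℝ) * ξ + (((j : ℕ) - (j' : ℕ) : ℤ) : ℝ) * η +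
          ((⌊((i' : ℕ) * ξ + (j' : ℕ) * η)⌋ - ⌊((i : ℕ) * ξ + (j : ℕ) * η)⌋ : ℤ) : ℝ) := by
        rw [hu, hu']; simp only [Int.fract]; push_cast; ring
      rw [← h4]; exact h3
  rcases le_or_gt 0 q with h0 | h0
  · exact ⟨p, q, r, h0, hpq, hp, le_trans (le_abs_self q) hq, h⟩
  · refine ⟨-p, -q, -r, by omega, by omega, by rwa [abs_neg], le_trans (neg_le_abs q) hq, ?_⟩
    have : ((-p : ℤ) : ℝ) * ξ + ((-q : ℤ) : ℝ) * η + ((-r : ℤ) : ℝ) =
        -((p : ℝ) * ξ + q * η + r) := by push_cast; ring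
    rw [this, abs_neg]; exact h

/-- The Diophantine condition on the first coordinate. -/
def Dio (ξ : ℝ) : Prop :=
  ∃ N₀ : ℕ, ∀ N : ℕ, N₀ ≤ N → ∀ p r : ℤ, p ≠ 0 → |p| ≤ N → 1 / (N : ℝ) ^ 2 ≤ |(p : ℝ) * ξ + r|

theorem ae_dio : ∀ᵐ ξ : ℝ, Dio ξ := by
  have h1 : ∀ᵐ ξ : ℝ, Irrational ξ := by
    have : (Set.range ((↑) : ℚ → ℝ)).Countable := countable_range _
    filter_upwards [this.ae_notMem volume] with x hx
    exact hx
  filter_upwards [h1, ae_not_liouvilleWith] with ξ hirr hL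
  have h2 := hL 3 (by norm_num)
  have h3 : ∀ᶠ n : ℕ in atTop, ∀ m : ℤ, 1 / (n : ℝ) ^ 3 ≤ |ξ - m / n| := by
    have h4 : ¬ ∃ᶠ n : ℕ in atTop, ∃ m : ℤ, ξ ≠ m / n ∧ |ξ - m / n| < 1 / (n : ℝ) ^ (3 : ℝ) :=
      fun h => h2 ⟨1, h⟩
    rw [not_frequently] at h4
    filter_upwards [h4] with n hn m
    by_contra hlt
    apply hn
    refine ⟨m, ?_, ?_⟩
    · intro h
      apply hirr
      exact ⟨(m : ℚ) / n, by rw [h]; push_cast; rfl⟩
    · rw [not_le] at hlt
      have : (n : ℝ) ^ (3 : ℝ) = (n : ℝ) ^ 3 := by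
        rw [← Real.rpow_natCast]; norm_num
      rw [this]; exact hlt
  obtain ⟨n₀, hn₀⟩ := eventually_atTop.1 h3
  -- small denominators
  have h5 : ∃ κ : ℝ, 0 < κ ∧ ∀ n : ℕ, 1 ≤ n → n < n₀ → ∀ m : ℤ, κ ≤ |(n : ℝ) * ξ + m| := by
    have h6 : ∀ k : ℕ, ∃ κ : ℝ, 0 < κ ∧ ∀ n : ℕ, 1 ≤ n → n < k → ∀ m : ℤ, κ ≤ |(n : ℝ) * ξ + m| := by
      intro k
      induction k with
      | zero => exact ⟨1, one_pos, fun n _ h => absurd h (Nat.not_lt_zero _)⟩
      | succ k ih =>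
        obtain ⟨κ, hκ, h⟩ := ih
        rcases Nat.eq_zero_or_pos k with hk | hk
        · exact ⟨κ, hκ, fun n h1 h2 => by omega⟩
        · have hirr' : Irrational ((k : ℝ) * ξ) := hirr.natCast_mul (by omega)
          have hpos : 0 < |(k : ℝ) * ξ - round ((k : ℝ) * ξ)| := by
            rw [abs_pos, sub_ne_zero]
            exact fun h => hirr' ⟨(round ((k : ℝ) * ξ) : ℚ), by rw [h]; push_cast; simp⟩
          refine ⟨min κ (|(k : ℝ) * ξ - round ((k : ℝ) * ξ)|), lt_min hκ hpos, fun n h1 h2 m => ?_⟩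
          rcases Nat.lt_or_ge n k with hn | hn
          · exact (min_le_left _ _).trans (h n h1 hn m)
          · have : n = k := by omega
            subst this
            refine (min_le_right _ _).trans ?_
            have := round_le ((n : ℝ) * ξ) (-m)
            push_cast at this
            simpa using this
    exact h6 n₀
  obtain ⟨κ, hκ, hκ'⟩ := h5
  obtain ⟨N₁, hN₁⟩ := exists_nat_gt (1 / κ)
  refine ⟨max N₁ 1, fun N hN p r hp hpN => ?_⟩
  have hN1 : 1 ≤ N := (le_max_right _ _).trans hN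
  have hN2 : N₁ ≤ N := (le_max_left _ _).trans hN
  have hNr : (1 : ℝ) ≤ N := by exact_mod_cast hN1
  -- reduce to positive p
  obtain ⟨n, m, hn1, hnN, hnm⟩ : ∃ n : ℕ, ∃ m : ℤ, 1 ≤ n ∧ n ≤ N ∧
      |(p : ℝ) * ξ + r| = |(n : ℝ) * ξ + m| := by
    have hpN' := abs_le.1 hpN
    rcases lt_or_gt_of_ne hp with h | h
    · refine ⟨p.natAbs, -r, by omega, by omega, ?_⟩
      have : ((p.natAbs : ℕ) : ℝ) = -(p : ℝ) := by
        have : ((p.natAbs : ℕ) : ℤ) = -p := by omega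
        rw [← Int.cast_natCast, this]; push_cast; ring
      rw [this, ← abs_neg]; push_cast; congr 1; ring
    · refine ⟨p.natAbs, r, by omega, by omega, ?_⟩
      have : ((p.natAbs : ℕ) : ℝ) = (p : ℝ) := by
        have : ((p.natAbs : ℕ) : ℤ) = p := by omega
        rw [← Int.cast_natCast, this]
      rw [this]
  rw [hnm]
  rcases Nat.lt_or_ge n n₀ with h | h
  · refine le_trans ?_ (hκ' n hn1 h m)
    have h7 : 1 / κ < N := lt_of_lt_of_le hN₁ (by exact_mod_cast hN2)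
    rw [div_lt_iff₀ hκ] at h7
    rw [div_le_iff₀ (by positivity)]
    nlinarith
  · have h8 := hn₀ n h (-m)
    have hn0 : (0 : ℝ) < n := by exact_mod_cast hn1
    have h9 : |(n : ℝ) * ξ + m| = n * |ξ - ((-m : ℤ) : ℝ) / n| := by
      rw [← abs_of_pos hn0, ← abs_mul, abs_of_pos hn0]
      congr 1
      push_cast
      field_simp
      ring
    rw [h9]
    have h10 : (n : ℝ) * (1 / (n : ℝ) ^ 3) ≤ n * |ξ - ((-m : ℤ) : ℝ) / n| := by gcongr
    refine le_trans ?_ h10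
    have h11 : (n : ℝ) * (1 / (n : ℝ) ^ 3) = 1 / (n : ℝ) ^ 2 := by field_simp
    rw [h11]
    have h12 : (n : ℝ) ≤ N := by exact_mod_cast hnN
    gcongr

theorem slab_volume (θ a b τ : ℝ) (hab : a ≤ b) (hτ : 0 < τ) (hτ1 : τ ≤ 1) (q : ℕ) (hq : 1 ≤ q) :
    volume {η : ℝ | η ∈ Icc a b ∧ ∃ r : ℤ, |θ + q * η + r| < τ} ≤
      ENNReal.ofReal ((q * (b - a) + 3) * (2 * τ / q)) := by
  have hq0 : (0 : ℝ) < q := by exact_mod_cast hq
  set R : Finset ℤ := Finset.Icc ⌈-(θ + q * b) - τ⌉ ⌊-(θ + q * a) + τ⌋ with hR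
  have hsub : {η : ℝ | η ∈ Icc a b ∧ ∃ r : ℤ, |θ + q * η + r| < τ} ⊆
      ⋃ r ∈ R, Metric.ball (-(θ + r) / q) (τ / q) := by
    rintro η ⟨hη, r, hr⟩
    rw [mem_iUnion₂]
    refine ⟨r, ?_, ?_⟩
    · rw [hR, Finset.mem_Icc, Int.ceil_le, Int.le_floor]
      rw [abs_lt] at hr
      constructor <;> nlinarith [hη.1, hη.2, hr.1, hr.2]
    · rw [Metric.mem_ball, Real.dist_eq]
      have : η - -(θ + r) / q = (θ + q * η + r) / q := by field_simp; ring
      rw [this, abs_div, abs_of_pos hq0]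
      gcongr
  refine (measure_mono hsub).trans ((measure_biUnion_finset_le _ _).trans ?_)
  simp_rw [Real.volume_ball]
  rw [Finset.sum_const, nsmul_eq_mul]
  have hcard : (R.card : ℝ) ≤ q * (b - a) + 3 := by
    rw [hR, Int.card_Icc]
    have h0 : 0 ≤ (q : ℝ) * (b - a) + 3 := by
      have : 0 ≤ b - a := by linarith
      positivity
    rcases le_or_gt 0 (⌊-(θ + q * a) + τ⌋ + 1 - ⌈-(θ + q * b) - τ⌉) with h | h
    · have h1 : ((Int.toNat (⌊-(θ + q * a) + τ⌋ + 1 - ⌈-(θ + q * b) - τ⌉) : ℕ) : ℝ) =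
          (⌊-(θ + q * a) + τ⌋ : ℝ) + 1 - (⌈-(θ + q * b) - τ⌉ : ℝ) := by
        rw [← Int.cast_natCast, Int.toNat_of_nonneg h]; push_cast; ring
      rw [h1]
      have h2 := Int.floor_le (-(θ + q * a) + τ)
      have h3 := Int.le_ceil (-(θ + q * b) - τ)
      nlinarith
    · rw [Int.toNat_of_nonpos h.le]; simpa using h0
  rw [← ENNReal.ofReal_natCast, ← ENNReal.ofReal_mul (by positivity)]
  refine ENNReal.ofReal_le_ofReal ?_
  have : 2 * (τ / q) = 2 * τ / q := by ring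
  rw [this]
  gcongr

theorem exists_separated (T : Finset ℝ) {δ : ℝ} (hδ : 0 < δ) :
    ∃ Y ⊆ T, (∀ z ∈ Y, ∀ z' ∈ Y, z ≠ z' → δ ≤ |z - z'|) ∧ ∀ t ∈ T, ∃ y ∈ Y, |t - y| < δ := by
  classical
  induction T using Finset.induction_on with
  | empty => exact ⟨∅, by simp, by simp, by simp⟩
  | insert t T ht ih =>
    obtain ⟨Y, hYT, hsep, hcov⟩ := ih
    by_cases h : ∃ y ∈ Y, |t - y| < δ
    · refine ⟨Y, hYT.trans (Finset.subset_insert _ _), hsep, fun u hu => ?_⟩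
      rcases Finset.mem_insert.1 hu with rfl | hu
      · exact h
      · exact hcov u hu
    · push Not at h
      refine ⟨insert t Y, Finset.insert_subset_insert _ hYT, ?_, ?_⟩
      · intro z hz z' hz' hne
        rcases Finset.mem_insert.1 hz with e | hz <;> rcases Finset.mem_insert.1 hz' with e' | hz'
        · exact absurd (e.trans e'.symm) hne
        · rw [e]; exact h z' hz'
        · rw [e', abs_sub_comm]; exact h z hz
        · exact hsep z hz z' hz' hne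
      · intro u hu
        rcases Finset.mem_insert.1 hu with rfl | hu
        · exact ⟨u, Finset.mem_insert_self _ _, by simpa using hδ⟩
        · obtain ⟨y, hy, h'⟩ := hcov u hu
          exact ⟨y, Finset.mem_insert_of_mem hy, h'⟩

end Pool.Agent.Lib.MP_18f540_nt
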