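import Mathlib
import Pool.Agent.Lib.MP_18f540_nt.Ubiq

/-!
For `ξ` satisfying the Diophantine condition `Dio`, the slice has positive `σ`-dimensional
Hausdorff measure for every `σ < 3 / (w + 1)`.
-/

set_option autoImplicit false

open MeasureTheory Filter Set Topology
open scoped ENNReal NNReal

namespace Pool.Agent.Lib.MP_18f540_nt

theorem exists_centers {ξ x y : ℝ} (hx : 0 ≤ x) (hxy : x < y) (hy : y ≤ 1) (M N : ℕ) (hM : 1 ≤ M)
    (hN : N = 48 * M)
    (hD : ∀ p r : ℤ, p ≠ 0 → |p| ≤ N → 1 / (N : ℝ) ^ 2 ≤ |(p : ℝ) * ξ + r|)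
    (δ : ℝ) (hδ : δ = 48 / (N : ℝ) ^ 3) (hδl : δ ≤ (y - x) / 8)
    (hH : 18 * (∑ i ∈ Finset.range M, 1 / ((i : ℝ) + 1)) / N ≤ (y - x) / 8) :
    ∃ Y : Finset ℝ, 1 / 16 * (y - x) ≤ δ * Y.card ∧
      (∀ z ∈ Y, ∀ z' ∈ Y, z ≠ z' → δ ≤ |z - z'|) ∧
      ∀ z ∈ Y, x + (y - x) / 8 ≤ z ∧ z ≤ y - (y - x) / 8 ∧
        ∃ p q r : ℤ, |p| ≤ N ∧ (M : ℤ) < q ∧ q ≤ N ∧ z = -(p * ξ + r) / q := by
  classical
  have hN1 : 1 ≤ N := by omega
  have hNr : (1 : ℝ) ≤ N := by exact_mod_cast hN1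
  have hMr : (1 : ℝ) ≤ M := by exact_mod_cast hM
  have hNM : (N : ℝ) = 48 * M := by rw [hN]; push_cast; ring
  have hN0 : (0 : ℝ) < N := by linarith
  have hδ0 : 0 < δ := by rw [hδ]; positivity
  set B : ℤ := ⌈(N : ℝ) * (|ξ| + 1)⌉ with hB
  set T0 : Finset (ℤ × ℤ × ℤ) :=
    Finset.Icc (-(N : ℤ)) N ×ˢ Finset.Ioc (M : ℤ) N ×ˢ Finset.Icc (-B) B with hT0
  set T : Finset ℝ := (T0.image (fun t => -((t.1 : ℝ) * ξ + t.2.2) / t.2.1)).filter
    (fun z => x + (y - x) / 8 ≤ z ∧ z ≤ y - (y - x) / 8) with hT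
  obtain ⟨Y, hYT, hsep, hcov⟩ := exists_separated T hδ0
  refine ⟨Y, ?_, hsep, ?_⟩
  swap
  · intro z hz
    have hz1 := hYT hz
    rw [hT, Finset.mem_filter, Finset.mem_image] at hz1
    obtain ⟨⟨⟨p, q, r⟩, ht, hzt⟩, hz2, hz3⟩ := hz1
    rw [hT0, Finset.mem_product, Finset.mem_product, Finset.mem_Icc, Finset.mem_Ioc] at ht
    exact ⟨hz2, hz3, p, q, r, abs_le.2 ht.1, ht.2.1.1, ht.2.1.2, hzt.symm⟩
  -- the bad set
  set Bad : Set ℝ := ⋃ i ∈ Finset.range M, ⋃ p ∈ Finset.Icc (-(N : ℤ)) N,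
    {η : ℝ | η ∈ Icc x y ∧ ∃ r : ℤ, |(p : ℝ) * ξ + ((i + 1 : ℕ) : ℝ) * η + r| < 1 / (N : ℝ) ^ 2}
    with hBad
  have hτ1 : 1 / (N : ℝ) ^ 2 ≤ 1 := by
    rw [div_le_one (by positivity)]; exact one_le_pow₀ hNr
  have hBadvol : volume Bad ≤ ENNReal.ofReal ((y - x) / 4) := by
    have h1 : volume Bad ≤ ∑ i ∈ Finset.range M, ∑ p ∈ Finset.Icc (-(N : ℤ)) N,
        ENNReal.ofReal ((((i + 1 : ℕ) : ℝ) * (y - x) + 3) *
          (2 * (1 / (N : ℝ) ^ 2) / ((i + 1 : ℕ) : ℝ))) := by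
      refine (measure_biUnion_finset_le _ _).trans (Finset.sum_le_sum fun i _ => ?_)
      refine (measure_biUnion_finset_le _ _).trans (Finset.sum_le_sum fun p _ => ?_)
      exact slab_volume _ _ _ _ hxy.le (by positivity) hτ1 (i + 1) (by omega)
    refine h1.trans ?_
    have h2 : ∀ i ∈ Finset.range M, ∑ p ∈ Finset.Icc (-(N : ℤ)) N,
        ENNReal.ofReal ((((i + 1 : ℕ) : ℝ) * (y - x) + 3) *
          (2 * (1 / (N : ℝ) ^ 2) / ((i + 1 : ℕ) : ℝ))) ≤
        ENNReal.ofReal (6 * (y - x) / N + 18 / N * (1 / ((i : ℝ) + 1))) := by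
      intro i _
      rw [Finset.sum_const, nsmul_eq_mul]
      have hcard : (((Finset.Icc (-(N : ℤ)) N).card : ℕ) : ℝ) ≤ 3 * N := by
        rw [Int.card_Icc]
        have : ((N : ℤ) + 1 - -(N : ℤ)).toNat = 2 * N + 1 := by omega
        rw [this]; push_cast; linarith
      rw [← ENNReal.ofReal_natCast, ← ENNReal.ofReal_mul (by positivity)]
      refine ENNReal.ofReal_le_ofReal ?_
      have hi : (0 : ℝ) < (i : ℝ) + 1 := by positivity
      have hl : 0 < y - x := by linarith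
      have h3 : (((i + 1 : ℕ) : ℝ) * (y - x) + 3) *
          (2 * (1 / (N : ℝ) ^ 2) / ((i + 1 : ℕ) : ℝ)) =
          (2 * (y - x) + 6 * (1 / ((i : ℝ) + 1))) / (N : ℝ) ^ 2 := by
        push_cast; field_simp; ring
      rw [h3]
      calc _ ≤ (3 * N) * ((2 * (y - x) + 6 * (1 / ((i : ℝ) + 1))) / (N : ℝ) ^ 2) := by gcongr
        _ = _ := by field_simp; ring
    refine (Finset.sum_le_sum h2).trans ?_
    rw [← ENNReal.ofReal_sum_of_nonneg]
    · refine ENNReal.ofReal_le_ofReal ?_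
      rw [Finset.sum_add_distrib, Finset.sum_const, Finset.card_range, nsmul_eq_mul,
        ← Finset.mul_sum]
      have h4 : (M : ℝ) * (6 * (y - x) / N) = (y - x) / 8 := by
        rw [hNM]; field_simp; ring
      have h5 : 18 / (N : ℝ) * ∑ i ∈ Finset.range M, 1 / ((i : ℝ) + 1) =
          18 * (∑ i ∈ Finset.range M, 1 / ((i : ℝ) + 1)) / N := by ring
      rw [h4, h5]
      linarith
    · intro i _
      have hl : 0 < y - x := by linarith
      positivity
  -- covering of the middle half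
  have hcover : Icc (x + (y - x) / 4) (y - (y - x) / 4) ⊆
      Bad ∪ ⋃ z ∈ Y, Metric.ball z (2 * δ) := by
    intro η hη
    have hη1 : η ∈ Icc x y := ⟨by linarith [hη.1], by linarith [hη.2]⟩
    obtain ⟨p, q, r, hq0, hpq, hp, hq, h⟩ := dirichlet ξ η N hN1
    have hq1 : 1 ≤ q := by
      by_contra hlt
      have hq : q = 0 := by omega
      have h1 := hD p r (hpq hq) hp
      rw [hq] at h
      simp only [Int.cast_zero, zero_mul, add_zero] at h
      linarith
    rcases le_or_gt q M with hqM | hqM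
    · left
      rw [hBad, mem_iUnion₂]
      refine ⟨(q - 1).toNat, by rw [Finset.mem_range]; omega, ?_⟩
      rw [mem_iUnion₂]
      refine ⟨p, by rw [Finset.mem_Icc]; exact abs_le.1 hp, hη1, r, ?_⟩
      have : (((q - 1).toNat + 1 : ℕ) : ℝ) = q := by
        have : (((q - 1).toNat + 1 : ℕ) : ℤ) = q := by omega
        rw [← Int.cast_natCast, this]
      rw [this]; exact h
    · right
      have hqr : (M : ℝ) < q := by exact_mod_cast hqM
      have hqpos : (0 : ℝ) < q := by linarith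
      have hqN : (q : ℝ) ≤ N := by exact_mod_cast hq
      set z : ℝ := -((p : ℝ) * ξ + r) / q with hz
      have hzη : |η - z| < δ := by
        have e1 : η - z = ((p : ℝ) * ξ + q * η + r) / q := by rw [hz]; field_simp; ring
        rw [e1, abs_div, abs_of_pos hqpos, div_lt_iff₀ hqpos]
        have e2 : 1 / (N : ℝ) ^ 2 = δ * M := by
          rw [hδ]
          have : (M : ℝ) = N / 48 := by rw [hNM]; ring
          rw [this]; field_simp
        rw [e2] at h
        refine h.trans_le ?_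
        gcongr
      have hz' := abs_lt.1 hzη
      have hzT : z ∈ T := by
        rw [hT, Finset.mem_filter, Finset.mem_image]
        refine ⟨⟨(p, q, r), ?_, rfl⟩, by linarith [hη.1], by linarith [hη.2]⟩
        rw [hT0, Finset.mem_product, Finset.mem_product, Finset.mem_Icc, Finset.mem_Ioc,
          Finset.mem_Icc]
        refine ⟨abs_le.1 hp, ⟨hqM, hq⟩, ?_⟩
        have hr : |(r : ℝ)| ≤ N * (|ξ| + 1) := by
          have e3 : (r : ℝ) = -(q * z) - p * ξ := by rw [hz]; field_simp; ring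
          rw [e3]
          have hz01 : |z| ≤ 1 := by
            rw [abs_le]; constructor <;> linarith [hη.1, hη.2]
          have hpN : |(p : ℝ)| ≤ N := by exact_mod_cast hp
          calc |(-(q * z) - p * ξ : ℝ)| ≤ |(-(q * z) : ℝ)| + |(p * ξ : ℝ)| := abs_sub _ _
            _ = q * |z| + |(p : ℝ)| * |ξ| := by rw [abs_neg, abs_mul, abs_mul, abs_of_pos hqpos]
            _ ≤ N * 1 + N * |ξ| := by gcongr
            _ = N * (|ξ| + 1) := by ring
        have hrB : |(r : ℝ)| ≤ B := hr.trans (Int.le_ceil _)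
        have : |r| ≤ B := by exact_mod_cast hrB
        exact abs_le.1 this
      obtain ⟨u, hu, hzu⟩ := hcov z hzT
      rw [mem_iUnion₂]
      refine ⟨u, hu, ?_⟩
      rw [Metric.mem_ball, Real.dist_eq]
      calc |η - u| = |(η - z) + (z - u)| := by congr 1; ring
        _ ≤ |η - z| + |z - u| := abs_add_le _ _
        _ < 2 * δ := by linarith
  have hvol : ENNReal.ofReal ((y - x) / 2) ≤
      ENNReal.ofReal ((y - x) / 4) + ENNReal.ofReal (Y.card * (4 * δ)) := by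
    calc ENNReal.ofReal ((y - x) / 2) = volume (Icc (x + (y - x) / 4) (y - (y - x) / 4)) := by
          rw [Real.volume_Icc]; congr 1; ring
      _ ≤ volume (Bad ∪ ⋃ z ∈ Y, Metric.ball z (2 * δ)) := measure_mono hcover
      _ ≤ volume Bad + volume (⋃ z ∈ Y, Metric.ball z (2 * δ)) := measure_union_le _ _
      _ ≤ ENNReal.ofReal ((y - x) / 4) + ENNReal.ofReal (Y.card * (4 * δ)) := by
          refine add_le_add hBadvol ?_
          refine (measure_biUnion_finset_le _ _).trans ?_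
          simp_rw [Real.volume_ball]
          rw [Finset.sum_const, nsmul_eq_mul, ← ENNReal.ofReal_natCast,
            ← ENNReal.ofReal_mul (by positivity)]
          refine ENNReal.ofReal_le_ofReal (le_of_eq ?_)
          ring
  have hl : 0 < y - x := by linarith
  rw [← ENNReal.ofReal_add (by positivity) (by positivity),
    ENNReal.ofReal_le_ofReal_iff (by positivity)] at hvol
  linarith

/-- The points `η` admitting a good approximation with large coefficients. -/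
def G (w ξ : ℝ) (m : ℕ) : Set ℝ :=
  {η | ∃ p q r : ℤ, (m : ℤ) ≤ max |p| |q| ∧ 0 < max |p| |q| ∧
    |(p : ℝ) * ξ + q * η + r| < ((max |p| |q| : ℤ) : ℝ) ^ (-w)}

theorem slice_pos {w σ ξ : ℝ} (hw : 2 < w) (hσ : 0 < σ) (hσ1 : σ < 1) (hσw : σ * (w + 1) < 3)
    (hξ : Dio ξ) : Measure.hausdorffMeasure σ {t : ℝ | ∃ᶠ m in atTop, t ∈ G w ξ m} ≠ 0 := by
  refine hausdorffMeasure_limsup_ne_zero hσ hσ1 (c₀ := 1 / 16) (by norm_num) (G w ξ) ?_
  intro x y hx hxy hy n K hK
  obtain ⟨N₀, hN₀⟩ := hξ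
  have hl : 0 < y - x := by linarith
  have hNt : Tendsto (fun M : ℕ => ((48 * M : ℕ) : ℝ)) atTop atTop := by
    refine tendsto_natCast_atTop_atTop.comp ?_
    exact tendsto_id.const_mul_atTop' (by norm_num)
  have E1 : ∀ᶠ M : ℕ in atTop, n ≤ M := eventually_ge_atTop n
  have E2 : ∀ᶠ M : ℕ in atTop, N₀ ≤ M := eventually_ge_atTop N₀
  have E3 : ∀ᶠ M : ℕ in atTop, 1 ≤ M := eventually_ge_atTop 1
  have E4 : ∀ᶠ M : ℕ in atTop, 48 / ((48 * M : ℕ) : ℝ) ^ 3 ≤ (y - x) / 8 := by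
    have : Tendsto (fun M : ℕ => 48 / ((48 * M : ℕ) : ℝ) ^ 3) atTop (𝓝 0) :=
      tendsto_const_nhds.div_atTop ((tendsto_pow_atTop (by norm_num)).comp hNt)
    exact (this.eventually_lt_const (by positivity : (0 : ℝ) < (y - x) / 8)).mono
      fun _ h => h.le
  have E5 : ∀ᶠ M : ℕ in atTop, 1 / 2 * ((48 * M : ℕ) : ℝ) ^ (-(w + 1)) ≤ (y - x) / 8 := by
    have h1 : Tendsto (fun M : ℕ => ((48 * M : ℕ) : ℝ) ^ (-(w + 1))) atTop (𝓝 0) :=
      (tendsto_rpow_neg_atTop (by linarith)).comp hNt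
    have h2 := h1.const_mul (1 / 2)
    rw [mul_zero] at h2
    exact (h2.eventually_lt_const (by positivity : (0 : ℝ) < (y - x) / 8)).mono
      fun _ h => h.le
  have E6 : ∀ᶠ M : ℕ in atTop,
      K * 48 ≤ (1 / 2 : ℝ) ^ σ * ((48 * M : ℕ) : ℝ) ^ (3 - σ * (w + 1)) := by
    have h1 : Tendsto (fun M : ℕ => ((48 * M : ℕ) : ℝ) ^ (3 - σ * (w + 1))) atTop atTop :=
      (tendsto_rpow_atTop (by linarith)).comp hNt
    have h2 := h1.const_mul_atTop (by positivity : (0 : ℝ) < (1 / 2 : ℝ) ^ σ)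
    exact h2.eventually_ge_atTop _
  have E7 : ∀ᶠ M : ℕ in atTop,
      18 * (∑ i ∈ Finset.range M, 1 / ((i : ℝ) + 1)) / ((48 * M : ℕ) : ℝ) ≤ (y - x) / 8 := by
    have h1 := (tendsto_one_div_add_atTop_nhds_zero_nat (𝕜 := ℝ)).cesaro
    have h2 := h1.const_mul (18 / 48 : ℝ)
    rw [mul_zero] at h2
    refine (h2.eventually_lt_const (by positivity : (0 : ℝ) < (y - x) / 8)).mono
      fun M h => le_trans (le_of_eq ?_) h.le
    push_cast
    rw [div_eq_mul_inv, mul_inv]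
    ring
  obtain ⟨M, hM1, hM2, hM3, hM4, hM5, hM6, hM7⟩ :=
    (E1.and (E2.and (E3.and (E4.and (E5.and (E6.and E7)))))).exists
  set N : ℕ := 48 * M with hN
  have hN1 : 1 ≤ N := by omega
  have hNr : (1 : ℝ) ≤ N := by exact_mod_cast hN1
  have hN0 : (0 : ℝ) < N := by linarith
  obtain ⟨Y, hY1, hY2, hY3⟩ := exists_centers hx hxy hy M N hM3 hN
    (hN₀ N (by omega)) (48 / (N : ℝ) ^ 3) rfl hM4 hM7
  have hrpow3 : (N : ℝ) ^ (-(3 : ℝ)) = 1 / (N : ℝ) ^ 3 := by
    rw [Real.rpow_neg hN0.le, one_div, show (3 : ℝ) = ((3 : ℕ) : ℝ) by norm_num,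
      Real.rpow_natCast]
  refine ⟨M, hM1, 48 / (N : ℝ) ^ 3, 1 / 2 * (N : ℝ) ^ (-(w + 1)), by positivity, by positivity,
    ?_, by linarith, ?_, Y, hY1, hY2, ?_⟩
  · have h1 : (N : ℝ) ^ (-(w + 1)) ≤ (N : ℝ) ^ (-(3 : ℝ)) :=
      Real.rpow_le_rpow_of_exponent_le hNr (by linarith)
    rw [hrpow3] at h1
    have h2 : (48 : ℝ) / (N : ℝ) ^ 3 = 48 * (1 / (N : ℝ) ^ 3) := by ring
    rw [h2]
    have h3 : (0 : ℝ) < 1 / (N : ℝ) ^ 3 := by positivity
    linarith
  · rw [Real.mul_rpow (by norm_num) (by positivity), ← Real.rpow_mul hN0.le]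
    have h1 : (N : ℝ) ^ (3 - σ * (w + 1)) = (N : ℝ) ^ 3 * (N : ℝ) ^ (-(w + 1) * σ) := by
      rw [← Real.rpow_natCast, ← Real.rpow_add hN0]
      congr 1
      push_cast; ring
    rw [h1] at hM6
    rw [← mul_div_assoc, div_le_iff₀ (by positivity)]
    linarith
  · intro z hz t ht
    obtain ⟨hz1, hz2, p, q, r, hp, hq1, hq2, hzz⟩ := hY3 z hz
    refine ⟨⟨by linarith [ht.1], by linarith [ht.2]⟩, p, q, r, ?_, ?_, ?_⟩
    · exact le_trans (by omega) (le_trans (le_abs_self q) (le_max_right _ _))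
    · exact lt_of_lt_of_le (by omega) (le_trans (le_abs_self q) (le_max_right _ _))
    · have hqr : (M : ℝ) < q := by exact_mod_cast hq1
      have hqpos : (0 : ℝ) < q := lt_of_le_of_lt (by positivity) hqr
      have hqN : (q : ℝ) ≤ N := by exact_mod_cast hq2
      have hmaxN : ((max |p| |q| : ℤ) : ℝ) ≤ N := by
        have : max |p| |q| ≤ (N : ℤ) := max_le hp (by rw [abs_of_pos (by omega)]; exact hq2)
        exact_mod_cast this
      have hmax0 : (0 : ℝ) < ((max |p| |q| : ℤ) : ℝ) := by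
        have : (0 : ℤ) < max |p| |q| :=
          lt_of_lt_of_le (by omega) (le_trans (le_abs_self q) (le_max_right _ _))
        exact_mod_cast this
      have e1 : (p : ℝ) * ξ + q * t + r = q * (t - z) := by rw [hzz]; field_simp; ring
      rw [e1, abs_mul, abs_of_pos hqpos]
      have e2 : |t - z| ≤ 1 / 2 * (N : ℝ) ^ (-(w + 1)) := by
        rw [abs_le]; constructor <;> linarith [ht.1, ht.2]
      calc (q : ℝ) * |t - z| ≤ N * (1 / 2 * (N : ℝ) ^ (-(w + 1))) := by gcongr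
        _ = 1 / 2 * (N : ℝ) ^ (-w) := by
            have : (N : ℝ) ^ (-w) = N * (N : ℝ) ^ (-(w + 1)) := by
              rw [← Real.rpow_one_add' hN0.le (by linarith)]
              congr 1; ring
            rw [this]; ring
        _ < (N : ℝ) ^ (-w) := by
            have : 0 < (N : ℝ) ^ (-w) := by positivity
            linarith
        _ ≤ ((max |p| |q| : ℤ) : ℝ) ^ (-w) :=
            Real.rpow_le_rpow_of_nonpos hmax0 hmaxN (by linarith)

end Pool.Agent.Lib.MP_18f540_nt
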