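import Mathlib
import Pool.Agent.Lib.MP_18f540_nt.Cover

/-!
Upper bound for the dimension of the sets of well approximable pairs.
-/

set_option autoImplicit false

open MeasureTheory Filter Set Topology
open scoped ENNReal NNReal

namespace Pool.Agent.Lib.MP_18f540_nt

/-- A piece of a strip around the line `p ξ + q η + r = 0`. -/
def piece (w : ℝ) (c : ℕ) (p q r j : ℤ) : Set (ℝ × ℝ) :=
  {v | |(p : ℝ) * v.1 + q * v.2 + r| < c * |(p : ℝ)| ^ (-w) ∧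
    ⌊v.2 * (⌈|(p : ℝ)| ^ (w + 1)⌉₊ : ℕ)⌋ = j}

theorem ediam_piece {w : ℝ} {c : ℕ} {p q r j : ℤ} (hp : p ≠ 0) (hq : |q| ≤ |p|) :
    Metric.ediam (piece w c p q r j) ≤ ENNReal.ofReal ((1 + 2 * c) * |(p : ℝ)| ^ (-(w + 1))) := by
  have hp0 : (0 : ℝ) < |(p : ℝ)| := by
    rw [abs_pos]; exact_mod_cast hp
  have hqp : |(q : ℝ)| ≤ |(p : ℝ)| := by exact_mod_cast hq
  set P : ℝ := |(p : ℝ)| ^ (w + 1) with hP
  have hP0 : 0 < P := by positivity
  set M : ℕ := ⌈P⌉₊ with hM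
  have hPM : P ≤ M := Nat.le_ceil _
  have hM0 : (0 : ℝ) < M := lt_of_lt_of_le hP0 hPM
  have hPinv : |(p : ℝ)| ^ (-(w + 1)) = P⁻¹ := by rw [Real.rpow_neg hp0.le]
  have hpw : |(p : ℝ)| ^ (-w) = |(p : ℝ)| * P⁻¹ := by
    rw [← hPinv]
    nth_rewrite 2 [← Real.rpow_one |(p : ℝ)|]
    rw [← Real.rpow_add hp0]; congr 1; ring
  refine Metric.ediam_le fun v hv v' hv' => ?_
  rw [edist_le_ofReal (by positivity), Prod.dist_eq, Real.dist_eq, Real.dist_eq, hPinv]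
  have h2 : |v.2 - v'.2| ≤ P⁻¹ := by
    have h1 : |v.2 * M - v'.2 * M| < 1 :=
      Int.abs_sub_lt_one_of_floor_eq_floor (hv.2.trans hv'.2.symm)
    rw [← sub_mul, abs_mul, abs_of_pos hM0] at h1
    rw [← one_div, le_div_iff₀ hP0]
    calc |v.2 - v'.2| * P ≤ |v.2 - v'.2| * M := by gcongr
      _ ≤ 1 := h1.le
  have h1 : |v.1 - v'.1| ≤ (1 + 2 * c) * P⁻¹ := by
    have e : (p : ℝ) * (v.1 - v'.1) = ((p : ℝ) * v.1 + q * v.2 + r) -
        ((p : ℝ) * v'.1 + q * v'.2 + r) - q * (v.2 - v'.2) := by ring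
    have h3 : |(p : ℝ)| * |v.1 - v'.1| ≤ |(p : ℝ)| * ((1 + 2 * c) * P⁻¹) := by
      rw [← abs_mul, e]
      have g1 := hv.1
      have g2 := hv'.1
      rw [hpw] at g1 g2
      calc |((p : ℝ) * v.1 + q * v.2 + r) - ((p : ℝ) * v'.1 + q * v'.2 + r) -
            q * (v.2 - v'.2)| ≤ |((p : ℝ) * v.1 + q * v.2 + r) -
              ((p : ℝ) * v'.1 + q * v'.2 + r)| + |(q : ℝ) * (v.2 - v'.2)| := abs_sub _ _
        _ ≤ |(p : ℝ) * v.1 + q * v.2 + r| + |(p : ℝ) * v'.1 + q * v'.2 + r| +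
            |(q : ℝ)| * |v.2 - v'.2| := by
            rw [abs_mul]; gcongr; exact abs_sub _ _
        _ ≤ c * (|(p : ℝ)| * P⁻¹) + c * (|(p : ℝ)| * P⁻¹) + |(p : ℝ)| * P⁻¹ := by
            gcongr
        _ = _ := by ring
    exact le_of_mul_le_mul_left h3 hp0
  refine max_le h1 (h2.trans ?_)
  have : 0 ≤ P⁻¹ := by positivity
  nlinarith [mul_nonneg (Nat.cast_nonneg (α := ℝ) c) this]

/-- The finite set of the pieces needed. -/
noncomputable def Fset (w : ℝ) (Sq : ℤ → Finset ℤ) (c R : ℕ) (p : ℤ) : Finset (ℤ × ℤ × ℤ) :=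
  if p = 0 then ∅ else
    Sq p ×ˢ Finset.Icc (-((2 * R + c : ℕ) * |p|)) ((2 * R + c : ℕ) * |p|) ×ˢ
      Finset.Icc (-(R * (⌈|(p : ℝ)| ^ (w + 1)⌉₊ : ℕ) : ℤ)) (R * (⌈|(p : ℝ)| ^ (w + 1)⌉₊ : ℕ))

theorem card_Fset {w α : ℝ} (hw : 0 < w) {Sq : ℤ → Finset ℤ} (c R : ℕ) {p : ℤ} (hp : p ≠ 0)
    (hcard : ((Sq p).card : ℝ) ≤ 3 * |(p : ℝ)| ^ α) :
    ((Fset w Sq c R p).card : ℝ) ≤
      (6 * (4 * R + 2 * c + 1) * (2 * R + 1)) * |(p : ℝ)| ^ (α + w + 2) := by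
  have hp1 : (1 : ℝ) ≤ |(p : ℝ)| := by
    have : (1 : ℤ) ≤ |p| := Int.one_le_abs hp
    exact_mod_cast this
  have hp0 : (0 : ℝ) < |(p : ℝ)| := by linarith
  rw [Fset, if_neg hp, Finset.card_product, Finset.card_product, Int.card_Icc, Int.card_Icc]
  set P : ℝ := |(p : ℝ)| ^ (w + 1) with hP
  have hP1 : 1 ≤ P := Real.one_le_rpow hp1 (by linarith)
  set M : ℕ := ⌈P⌉₊ with hM
  have hM2 : (M : ℝ) ≤ 2 * P := by
    have := Nat.ceil_lt_add_one (a := P) (by linarith)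
    linarith
  have hM1 : (1 : ℝ) ≤ M := hP1.trans (Nat.le_ceil _)
  have e1 : ((((2 * R + c : ℕ) * |p| + 1 - -((2 * R + c : ℕ) * |p|)).toNat : ℕ) : ℝ) ≤
      (4 * R + 2 * c + 1) * |(p : ℝ)| := by
    have h1 : ((((2 * R + c : ℕ) * |p| + 1 - -((2 * R + c : ℕ) * |p|)).toNat : ℕ) : ℤ) =
        2 * ((2 * R + c : ℕ) * |p|) + 1 := by
      have h0 : (0 : ℤ) ≤ (2 * R + c : ℕ) * |p| := by positivity
      rw [Int.toNat_of_nonneg (by linarith)]; ring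
    have h2 : ((((2 * R + c : ℕ) * |p| + 1 - -((2 * R + c : ℕ) * |p|)).toNat : ℕ) : ℝ) =
        2 * ((2 * R + c) * |(p : ℝ)|) + 1 := by
      rw [← Int.cast_natCast, h1]; push_cast; ring
    rw [h2]; nlinarith
  have e2 : ((((R : ℤ) * (M : ℕ) + 1 - -((R : ℤ) * (M : ℕ))).toNat : ℕ) : ℝ) ≤
      (2 * R + 1) * (2 * P) := by
    have h1 : ((((R : ℤ) * (M : ℕ) + 1 - -((R : ℤ) * (M : ℕ))).toNat : ℕ) : ℤ) =
        2 * (R * M) + 1 := by
      have h0 : (0 : ℤ) ≤ (R : ℤ) * (M : ℕ) := by positivity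
      rw [Int.toNat_of_nonneg (by linarith)]; ring
    have h2 : ((((R : ℤ) * (M : ℕ) + 1 - -((R : ℤ) * (M : ℕ))).toNat : ℕ) : ℝ) =
        2 * (R * M) + 1 := by
      rw [← Int.cast_natCast, h1]; push_cast; ring
    rw [h2]
    have : (0 : ℝ) ≤ R := by positivity
    nlinarith
  push_cast at e1 e2 ⊢
  have e3 : |(p : ℝ)| ^ (α + w + 2) = |(p : ℝ)| ^ α * (|(p : ℝ)| * P) := by
    rw [hP]
    nth_rewrite 3 [← Real.rpow_one |(p : ℝ)|]
    rw [← Real.rpow_add hp0, ← Real.rpow_add hp0]; congr 1; ring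
  rw [e3]
  calc _ ≤ (3 * |(p : ℝ)| ^ α) * (((4 * R + 2 * c + 1) * |(p : ℝ)|) * ((2 * R + 1) * (2 * P))) := by
        gcongr
    _ = _ := by ring

/-- Points with infinitely many good approximations with `p ≠ 0`, `q ∈ Sq p`. -/
def A (w : ℝ) (Sq : ℤ → Finset ℤ) : Set (ℝ × ℝ) :=
  {v | ∃ c : ℝ, {t : ℤ × ℤ × ℤ | t.1 ≠ 0 ∧ t.2.1 ∈ Sq t.1 ∧
    |(t.1 : ℝ) * v.1 + t.2.1 * v.2 + t.2.2| < c * |(t.1 : ℝ)| ^ (-w)}.Infinite}

theorem upper {w α s : ℝ} (hw : 0 < w) {Sq : ℤ → Finset ℤ}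
    (hSq : ∀ p, ∀ q ∈ Sq p, |q| ≤ |p|)
    (hcard : ∀ p : ℤ, p ≠ 0 → ((Sq p).card : ℝ) ≤ 3 * |(p : ℝ)| ^ α)
    (hs0 : 0 < s) (hs : α + w + 3 < s * (w + 1)) :
    Measure.hausdorffMeasure s (A w Sq) = 0 := by
  classical
  set A' : ℕ → ℕ → Set (ℝ × ℝ) := fun c R => {v | |v.1| ≤ R ∧ |v.2| ≤ R ∧
    {t : ℤ × ℤ × ℤ | t.1 ≠ 0 ∧ t.2.1 ∈ Sq t.1 ∧
    |(t.1 : ℝ) * v.1 + t.2.1 * v.2 + t.2.2| < c * |(t.1 : ℝ)| ^ (-w)}.Infinite} with hA'
  have hsub : A w Sq ⊆ ⋃ c, ⋃ R, A' c R := by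
    rintro v ⟨c, hc⟩
    obtain ⟨c', hc'⟩ := exists_nat_ge c
    obtain ⟨R, hR⟩ := exists_nat_ge (max |v.1| |v.2|)
    rw [mem_iUnion]; refine ⟨c', ?_⟩
    rw [mem_iUnion]
    refine ⟨R, (le_max_left _ _).trans hR, (le_max_right _ _).trans hR, hc.mono ?_⟩
    rintro t ⟨h1, h2, h3⟩
    refine ⟨h1, h2, h3.trans_le ?_⟩
    gcongr
  refine measure_mono_null hsub (measure_iUnion_null fun c => measure_iUnion_null fun R => ?_)
  -- the pieces
  set f : ℤ × (ℤ × ℤ × ℤ) → Set (ℝ × ℝ) := fun i =>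
    if i.2 ∈ Fset w Sq c R i.1 then piece w c i.1 i.2.1 i.2.2.1 i.2.2.2 else ∅ with hf
  have hsum : ∑' i, Metric.ediam (f i) ^ s ≠ ∞ := by
    have h1 : ∑' i, Metric.ediam (f i) ^ s =
        ∑' (p : ℤ) (x : ℤ × ℤ × ℤ), Metric.ediam (f (p, x)) ^ s :=
      ENNReal.tsum_prod (f := fun p x => Metric.ediam (f (p, x)) ^ s)
    rw [h1]
    set b : ℝ := s * (w + 1) - (α + w + 2) with hb
    set C : ℝ := (6 * (4 * R + 2 * c + 1) * (2 * R + 1)) * (1 + 2 * c) ^ s with hC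
    have h2 : ∀ p : ℤ, ∑' x : ℤ × ℤ × ℤ, Metric.ediam (f (p, x)) ^ s ≤
        ENNReal.ofReal (C * |(p : ℝ)| ^ (-b)) := by
      intro p
      rcases eq_or_ne p 0 with hp | hp
      · have : ∀ x : ℤ × ℤ × ℤ, Metric.ediam (f (p, x)) ^ s = 0 := by
          intro x
          have : f (p, x) = ∅ := by
            rw [hf]; simp only; rw [if_neg]; rw [Fset, if_pos hp]; simp
          rw [this, Metric.ediam_empty, ENNReal.zero_rpow_of_pos hs0]
        simp [this]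
      · have hp0 : (0 : ℝ) < |(p : ℝ)| := by
          rw [abs_pos]; exact_mod_cast hp
        rw [tsum_eq_sum (s := Fset w Sq c R p)]
        · have h3 : ∀ x ∈ Fset w Sq c R p, Metric.ediam (f (p, x)) ^ s ≤
              ENNReal.ofReal (((1 + 2 * c) * |(p : ℝ)| ^ (-(w + 1))) ^ s) := by
            intro x hx
            have hx1 : x.1 ∈ Sq p := by
              rw [Fset, if_neg hp, Finset.mem_product] at hx
              exact hx.1
            have : f (p, x) = piece w c p x.1 x.2.1 x.2.2 := by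
              rw [hf]; simp only; rw [if_pos hx]
            rw [this, ← ENNReal.ofReal_rpow_of_nonneg (by positivity) hs0.le]
            exact ENNReal.rpow_le_rpow (ediam_piece hp (hSq p _ hx1)) hs0.le
          refine (Finset.sum_le_sum h3).trans ?_
          rw [Finset.sum_const, nsmul_eq_mul, ← ENNReal.ofReal_natCast,
            ← ENNReal.ofReal_mul (by positivity)]
          refine ENNReal.ofReal_le_ofReal ?_
          have h4 := card_Fset hw (w := w) (α := α) (Sq := Sq) c R hp (hcard p hp)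
          have h5 : ((1 + 2 * c) * |(p : ℝ)| ^ (-(w + 1))) ^ s =
              (1 + 2 * c) ^ s * |(p : ℝ)| ^ (-(s * (w + 1))) := by
            rw [Real.mul_rpow (by positivity) (by positivity), ← Real.rpow_mul hp0.le]
            congr 2; ring
          have h6 : |(p : ℝ)| ^ (-b) = |(p : ℝ)| ^ (α + w + 2) * |(p : ℝ)| ^ (-(s * (w + 1))) := by
            rw [← Real.rpow_add hp0]; congr 1; rw [hb]; ring
          rw [h5, h6, hC]
          calc _ ≤ ((6 * (4 * R + 2 * c + 1) * (2 * R + 1)) * |(p : ℝ)| ^ (α + w + 2)) *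
                ((1 + 2 * c) ^ s * |(p : ℝ)| ^ (-(s * (w + 1)))) := by gcongr
            _ = _ := by ring
        · intro x hx
          have : f (p, x) = ∅ := by
            rw [hf]; simp only; rw [if_neg hx]
          rw [this, Metric.ediam_empty, ENNReal.zero_rpow_of_pos hs0]
    refine ne_top_of_le_ne_top ?_ (ENNReal.tsum_le_tsum h2)
    refine Summable.tsum_ofReal_ne_top ((Real.summable_abs_int_rpow ?_).mul_left C)
    rw [hb]; linarith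
  refine measure_mono_null ?_ (hausdorff_bc hs0 f hsum)
  rintro v ⟨hv1, hv2, hv⟩
  refine Set.infinite_of_injOn_mapsTo
    (f := fun t : ℤ × ℤ × ℤ => (t.1, t.2.1, t.2.2, ⌊v.2 * (⌈|(t.1 : ℝ)| ^ (w + 1)⌉₊ : ℕ)⌋))
    ?_ ?_ hv
  · rintro ⟨a, b, d⟩ _ ⟨a', b', d'⟩ _ h
    simp only [Prod.mk.injEq] at h
    rw [h.1, h.2.1, h.2.2.1]
  · rintro ⟨p, q, r⟩ ⟨hp, hq, h⟩
    simp only at hp hq h
    have hp1 : (1 : ℝ) ≤ |(p : ℝ)| := by
      have : (1 : ℤ) ≤ |p| := Int.one_le_abs hp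
      exact_mod_cast this
    have hqp : |(q : ℝ)| ≤ |(p : ℝ)| := by exact_mod_cast hSq p q hq
    set M : ℕ := ⌈|(p : ℝ)| ^ (w + 1)⌉₊ with hM
    have hmem : (q, r, ⌊v.2 * (M : ℕ)⌋) ∈ Fset w Sq c R p := by
      rw [Fset, if_neg hp, Finset.mem_product, Finset.mem_product, Finset.mem_Icc, Finset.mem_Icc]
      refine ⟨hq, ?_, ?_, ?_⟩
      · have h1 : |(r : ℝ)| ≤ ((2 * R + c : ℕ) * |p| : ℤ) := by
          have e : (r : ℝ) = ((p : ℝ) * v.1 + q * v.2 + r) - p * v.1 - q * v.2 := by ring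
          rw [e]
          have hpw : |(p : ℝ)| ^ (-w) ≤ 1 := Real.rpow_le_one_of_one_le_of_nonpos hp1 (by linarith)
          calc |((p : ℝ) * v.1 + q * v.2 + r) - p * v.1 - q * v.2| ≤
                |((p : ℝ) * v.1 + q * v.2 + r) - p * v.1| + |(q : ℝ) * v.2| := abs_sub _ _
            _ ≤ |(p : ℝ) * v.1 + q * v.2 + r| + |(p : ℝ) * v.1| + |(q : ℝ) * v.2| := by
                gcongr; exact abs_sub _ _
            _ ≤ c * 1 + |(p : ℝ)| * R + |(p : ℝ)| * R := by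
                rw [abs_mul, abs_mul]
                have : |(p : ℝ) * v.1 + q * v.2 + r| ≤ c * 1 := h.le.trans (by gcongr)
                gcongr
            _ ≤ c * |(p : ℝ)| + |(p : ℝ)| * R + |(p : ℝ)| * R := by gcongr
            _ = _ := by push_cast; ring
        have h2 : |r| ≤ (2 * R + c : ℕ) * |p| := by exact_mod_cast h1
        exact abs_le.1 h2
      · rw [Int.le_floor]
        push_cast
        have := (abs_le.1 hv2).1
        nlinarith [Nat.cast_nonneg (α := ℝ) M]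
      · have h1 : (⌊v.2 * (M : ℕ)⌋ : ℝ) ≤ ((R * (M : ℕ) : ℤ) : ℝ) := by
          refine (Int.floor_le _).trans ?_
          push_cast
          have := (abs_le.1 hv2).2
          gcongr
        have h2 : ⌊v.2 * (M : ℕ)⌋ ≤ (R : ℤ) * (M : ℕ) := by exact_mod_cast h1
        exact h2
    show v ∈ f (p, q, r, ⌊v.2 * (M : ℕ)⌋)
    rw [hf]; simp only
    rw [if_pos hmem]
    exact ⟨h, rfl⟩

end Pool.Agent.Lib.MP_18f540_nt
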