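import Mathlib
import Pool.Agent.Lib.MP_18f540_nt.Slice
import Pool.Agent.Lib.MP_18f540_nt.Upper

/-!
Dimension of the set of pairs well approximable by linear forms with positive coefficients,
in `ℝ × ℝ`.
-/

set_option autoImplicit false

open MeasureTheory Filter Set Topology
open scoped ENNReal NNReal

namespace Pool.Agent.Lib.MP_18f540_nt

/-- The set without the sign condition. -/
def W (w : ℝ) : Set (ℝ × ℝ) :=
  {v | {t : ℤ × ℤ × ℤ | 0 < max |t.1| |t.2.1| ∧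
    |(t.1 : ℝ) * v.1 + t.2.1 * v.2 + t.2.2| < ((max |t.1| |t.2.1| : ℤ) : ℝ) ^ (-w)}.Infinite}

theorem hausdorff_W_ne_zero {w σ : ℝ} (hw : 2 < w) (hσ : 0 < σ) (hσ1 : σ < 1)
    (hσw : σ * (w + 1) < 3) : Measure.hausdorffMeasure (1 + σ) (W w) ≠ 0 := by
  intro h0
  have h1 := slice_null hσ h0
  obtain ⟨ξ, h2, h3⟩ := (h1.and ae_dio).exists
  refine slice_pos hw hσ hσ1 hσw h3 (measure_mono_null ?_ h2)
  intro η hη
  simp only [mem_ofPred_eq] at hη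
  show {t : ℤ × ℤ × ℤ | 0 < max |t.1| |t.2.1| ∧
    |(t.1 : ℝ) * ξ + t.2.1 * η + t.2.2| < ((max |t.1| |t.2.1| : ℤ) : ℝ) ^ (-w)}.Infinite
  intro hfin
  have hbdd : ∃ B : ℕ, ∀ t ∈ {t : ℤ × ℤ × ℤ | 0 < max |t.1| |t.2.1| ∧
    |(t.1 : ℝ) * ξ + t.2.1 * η + t.2.2| < ((max |t.1| |t.2.1| : ℤ) : ℝ) ^ (-w)},
      max |t.1| |t.2.1| < B := by
    obtain ⟨B, hB⟩ := (hfin.image (fun t : ℤ × ℤ × ℤ => (max |t.1| |t.2.1|).toNat)).bddAbove
    refine ⟨B + 1, fun t ht => ?_⟩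
    have : (max |t.1| |t.2.1|).toNat ≤ B := hB (mem_image_of_mem _ ht)
    have h4 := Int.self_le_toNat (max |t.1| |t.2.1|)
    push_cast
    omega
  obtain ⟨B, hB⟩ := hbdd
  obtain ⟨m, hm, p, q, r, h4, h5, h6⟩ := (hη.and_eventually (eventually_ge_atTop B)).exists.imp
    fun m hm => And.intro hm.2 hm.1
  have := hB (p, q, r) ⟨h5, h6⟩
  simp only at this
  omega

theorem le_dimH_W {w : ℝ} (hw : 2 < w) : ENNReal.ofReal (1 + 3 / (w + 1)) ≤ dimH (W w) := by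
  by_contra hlt
  rw [not_le] at hlt
  obtain ⟨r, hr1, hr2⟩ := ENNReal.lt_iff_exists_nnreal_btwn.1 hlt
  have hw1 : 0 < w + 1 := by linarith
  have h31 : 3 / (w + 1) < 1 := by rw [div_lt_one hw1]; linarith
  have h13 : 1 / (w + 1) < 3 / (w + 1) := by gcongr; norm_num
  have hr3 : (r : ℝ) < 1 + 3 / (w + 1) := by
    rw [← ENNReal.ofReal_coe_nnreal] at hr2
    exact (ENNReal.ofReal_lt_ofReal_iff (by positivity)).1 hr2
  set σ : ℝ := max ((r : ℝ) - 1) (1 / (w + 1)) with hσ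
  have hσ0 : 0 < σ := lt_of_lt_of_le (by positivity) (le_max_right _ _)
  have hσ3 : σ < 3 / (w + 1) := max_lt (by linarith) h13
  have hσ1 : σ < 1 := hσ3.trans h31
  have hσw : σ * (w + 1) < 3 := by rwa [lt_div_iff₀ hw1] at hσ3
  have h := hausdorff_W_ne_zero hw hσ0 hσ1 hσw
  have h' : Measure.hausdorffMeasure (((1 + σ).toNNReal : ℝ≥0) : ℝ) (W w) ≠ 0 := by
    rw [Real.coe_toNNReal _ (by positivity)]; exact h
  have h2 := le_dimH_of_hausdorffMeasure_ne_zero h'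
  have h3 : (r : ℝ≥0∞) ≤ ((1 + σ).toNNReal : ℝ≥0) := by
    rw [ENNReal.coe_le_coe, ← NNReal.coe_le_coe, Real.coe_toNNReal _ (by positivity)]
    have := le_max_left ((r : ℝ) - 1) (1 / (w + 1))
    linarith
  exact absurd (h3.trans h2) (not_le.2 hr1)

theorem dimH_A_le {w α : ℝ} (hw : 0 < w) (hα : 0 ≤ α) {Sq : ℤ → Finset ℤ}
    (hSq : ∀ p, ∀ q ∈ Sq p, |q| ≤ |p|)
    (hcard : ∀ p : ℤ, p ≠ 0 → ((Sq p).card : ℝ) ≤ 3 * |(p : ℝ)| ^ α) :
    dimH (A w Sq) ≤ ENNReal.ofReal (1 + (α + 2) / (w + 1)) := by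
  refine dimH_le fun d hd => ?_
  by_contra hlt
  rw [not_le, ← ENNReal.ofReal_coe_nnreal] at hlt
  have hw1 : 0 < w + 1 := by linarith
  have h1 : 1 + (α + 2) / (w + 1) < (d : ℝ) := by
    by_contra hge
    rw [not_lt] at hge
    exact absurd hlt (not_lt.2 (ENNReal.ofReal_le_ofReal hge))
  have h2 : 0 < (α + 2) / (w + 1) := by positivity
  have h3 : α + w + 3 < (d : ℝ) * (w + 1) := by
    have : (1 + (α + 2) / (w + 1)) * (w + 1) < (d : ℝ) * (w + 1) := by gcongr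
    have e : (1 + (α + 2) / (w + 1)) * (w + 1) = α + w + 3 := by field_simp; ring
    linarith
  have h4 := upper hw hSq hcard (s := (d : ℝ)) (by linarith) h3
  rw [h4] at hd
  exact ENNReal.zero_ne_top hd

/-- all `q` with `|q| ≤ |p|` -/
noncomputable def Sq1 (p : ℤ) : Finset ℤ := Finset.Icc (-|p|) |p|

theorem dimH_A1_le {w : ℝ} (hw : 0 < w) :
    dimH (A w Sq1) ≤ ENNReal.ofReal (1 + 3 / (w + 1)) := by
  have h := dimH_A_le hw (α := 1) zero_le_one (Sq := Sq1)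
    (fun p q hq => by rw [Sq1, Finset.mem_Icc] at hq; exact abs_le.2 hq)
    (fun p hp => by
      have hp1 : (1 : ℝ) ≤ |(p : ℝ)| := by
        have : (1 : ℤ) ≤ |p| := Int.one_le_abs hp
        exact_mod_cast this
      rw [Real.rpow_one, Sq1, Int.card_Icc]
      have h1 : (((|p| + 1 - -|p|).toNat : ℕ) : ℤ) = 2 * |p| + 1 := by
        rw [Int.toNat_of_nonneg (by have := abs_nonneg p; linarith)]; ring
      have h2 : (((|p| + 1 - -|p|).toNat : ℕ) : ℝ) = 2 * |(p : ℝ)| + 1 := by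
        rw [← Int.cast_natCast, h1]; push_cast; ring
      rw [h2]; linarith)
  have e : (1 : ℝ) + 2 = 3 := by norm_num
  rwa [e] at h

theorem dimH_A0_le {w : ℝ} (hw : 0 < w) :
    dimH (A w (fun _ => {0})) ≤ ENNReal.ofReal (1 + 2 / (w + 1)) := by
  have h := dimH_A_le hw (α := 0) le_rfl (Sq := fun _ => {0})
    (fun p q hq => by rw [Finset.mem_singleton] at hq; rw [hq]; simp)
    (fun p hp => by simp)
  rwa [zero_add] at h

/-- The set with the sign condition, in `ℝ × ℝ`. -/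
def E' (w : ℝ) : Set (ℝ × ℝ) :=
  {v | ∃ c : ℝ, 0 < c ∧ {t : ℤ × ℤ × ℤ | 0 < t.1 ∧ 0 < t.2.1 ∧
    |(t.1 : ℝ) * v.1 + t.2.1 * v.2 + t.2.2| < c * (max (t.1 : ℝ) t.2.1) ^ (-w)}.Infinite}

theorem inf_map {S T : Set (ℤ × ℤ × ℤ)} (g : ℤ × ℤ × ℤ → ℤ × ℤ × ℤ) (hg : Function.Injective g)
    (h : ∀ t ∈ S, g t ∈ T) (hS : S.Infinite) : T.Infinite :=
  infinite_of_injOn_mapsTo hg.injOn h hS

theorem swap_inj : Function.Injective (fun t : ℤ × ℤ × ℤ => (t.2.1, t.1, t.2.2)) := by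
  rintro ⟨a, b, c⟩ ⟨a', b', c'⟩ h
  simp only [Prod.mk.injEq] at h ⊢
  exact ⟨h.2.1, h.1, h.2.2⟩

theorem neg1_inj : Function.Injective (fun t : ℤ × ℤ × ℤ => (-t.1, -t.2.1, -t.2.2)) := by
  rintro ⟨a, b, c⟩ ⟨a', b', c'⟩ h
  simp only [Prod.mk.injEq, neg_inj] at h ⊢
  exact h

theorem neg2_inj : Function.Injective (fun t : ℤ × ℤ × ℤ => (t.1, -t.2.1, t.2.2)) := by
  rintro ⟨a, b, c⟩ ⟨a', b', c'⟩ h
  simp only [Prod.mk.injEq, neg_inj] at h ⊢
  exact h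

theorem neg3_inj : Function.Injective (fun t : ℤ × ℤ × ℤ => (-t.1, t.2.1, -t.2.2)) := by
  rintro ⟨a, b, c⟩ ⟨a', b', c'⟩ h
  simp only [Prod.mk.injEq, neg_inj] at h ⊢
  exact h

theorem E'_subset (w : ℝ) : E' w ⊆ A w Sq1 ∪ Prod.swap ⁻¹' (A w Sq1) := by
  rintro v ⟨c, hc, hv⟩
  have h1 : ({t : ℤ × ℤ × ℤ | 0 < t.1 ∧ 0 < t.2.1 ∧
      |(t.1 : ℝ) * v.1 + t.2.1 * v.2 + t.2.2| < c * (max (t.1 : ℝ) t.2.1) ^ (-w)} ∩
        {t | t.2.1 ≤ t.1} ∪
      {t : ℤ × ℤ × ℤ | 0 < t.1 ∧ 0 < t.2.1 ∧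
      |(t.1 : ℝ) * v.1 + t.2.1 * v.2 + t.2.2| < c * (max (t.1 : ℝ) t.2.1) ^ (-w)} ∩
        {t | t.1 ≤ t.2.1}).Infinite := by
    refine hv.mono fun t ht => ?_
    rcases le_total t.2.1 t.1 with h | h
    · exact Or.inl ⟨ht, h⟩
    · exact Or.inr ⟨ht, h⟩
  rcases infinite_union.1 h1 with h | h
  · left
    refine ⟨c, h.mono ?_⟩
    rintro ⟨p, q, r⟩ ⟨⟨hp, hq, ht⟩, hle⟩
    simp only [mem_ofPred_eq] at hp hq ht hle ⊢
    refine ⟨hp.ne', ?_, ?_⟩
    · rw [Sq1, Finset.mem_Icc, abs_of_pos hp]; omega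
    · have hp' : (0 : ℝ) < p := by exact_mod_cast hp
      have hle' : (q : ℝ) ≤ p := by exact_mod_cast hle
      rw [max_eq_left hle'] at ht
      rw [abs_of_pos hp']; exact ht
  · right
    refine ⟨c, inf_map _ swap_inj ?_ h⟩
    rintro ⟨p, q, r⟩ ⟨⟨hp, hq, ht⟩, hle⟩
    simp only [mem_ofPred_eq, Prod.fst_swap, Prod.snd_swap] at hp hq ht hle ⊢
    refine ⟨hq.ne', ?_, ?_⟩
    · rw [Sq1, Finset.mem_Icc, abs_of_pos hq]; omega
    · have hq' : (0 : ℝ) < q := by exact_mod_cast hq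
      have hle' : (p : ℝ) ≤ q := by exact_mod_cast hle
      rw [max_eq_right hle'] at ht
      rw [abs_of_pos hq']
      convert ht using 2
      ring

theorem dimH_swap (S : Set (ℝ × ℝ)) : dimH (Prod.swap ⁻¹' S) = dimH S :=
  (ContinuousLinearEquiv.prodComm ℝ ℝ ℝ).dimH_preimage S

/-- reflection -/
def refl2 (v : ℝ × ℝ) : ℝ × ℝ := (v.1, -v.2)

theorem dimH_refl2 (S : Set (ℝ × ℝ)) : dimH (refl2 ⁻¹' S) = dimH S :=
  ((ContinuousLinearEquiv.refl ℝ ℝ).prodCongr (ContinuousLinearEquiv.neg ℝ)).dimH_preimage S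

theorem W_subset (w : ℝ) : W w ⊆ (E' w ∪ refl2 ⁻¹' (E' w)) ∪
    (A w (fun _ => {0}) ∪ Prod.swap ⁻¹' (A w (fun _ => {0}))) := by
  intro v hv
  set T : Set (ℤ × ℤ × ℤ) := {t : ℤ × ℤ × ℤ | 0 < max |t.1| |t.2.1| ∧
    |(t.1 : ℝ) * v.1 + t.2.1 * v.2 + t.2.2| < ((max |t.1| |t.2.1| : ℤ) : ℝ) ^ (-w)} with hT
  have hv' : T.Infinite := hv
  have h1 : (((T ∩ {t | 0 < t.1 ∧ 0 < t.2.1}) ∪ (T ∩ {t | t.1 < 0 ∧ t.2.1 < 0})) ∪
      ((T ∩ {t | 0 < t.1 ∧ t.2.1 < 0}) ∪ (T ∩ {t | t.1 < 0 ∧ 0 < t.2.1})) ∪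
      ((T ∩ {t | t.2.1 = 0}) ∪ (T ∩ {t | t.1 = 0}))).Infinite := by
    refine hv'.mono fun t ht => ?_
    simp only [mem_union, mem_inter_iff, mem_ofPred_eq]
    have := ht
    rcases lt_trichotomy t.1 0 with a | a | a <;> rcases lt_trichotomy t.2.1 0 with b | b | b <;>
      simp [a, b, ht, a.not_gt, b.not_gt]
  have key : ∀ p q r : ℤ, 0 < p → 0 < q →
      ((max |p| |q| : ℤ) : ℝ) = max (p : ℝ) q := by
    intro p q r hp hq
    rw [abs_of_pos hp, abs_of_pos hq]; push_cast; rfl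
  rcases infinite_union.1 h1 with h | h
  · left
    rcases infinite_union.1 h with h | h
    · left
      rcases infinite_union.1 h with h | h
      · refine ⟨1, one_pos, h.mono ?_⟩
        rintro ⟨p, q, r⟩ ⟨⟨-, ht⟩, hp, hq⟩
        simp only [mem_ofPred_eq] at hp hq ht ⊢
        refine ⟨hp, hq, ?_⟩
        rw [one_mul, ← key p q r hp hq]; exact ht
      · refine ⟨1, one_pos, inf_map _ neg1_inj ?_ h⟩
        rintro ⟨p, q, r⟩ ⟨⟨-, ht⟩, hp, hq⟩
        simp only [mem_ofPred_eq] at hp hq ht ⊢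
        refine ⟨by omega, by omega, ?_⟩
        rw [one_mul, ← key (-p) (-q) r (by omega) (by omega), abs_neg, abs_neg]
        refine lt_of_eq_of_lt ?_ ht
        rw [← abs_neg]; push_cast; congr 1; ring
    · right
      rcases infinite_union.1 h with h | h
      · refine ⟨1, one_pos, inf_map _ neg2_inj ?_ h⟩
        rintro ⟨p, q, r⟩ ⟨⟨-, ht⟩, hp, hq⟩
        simp only [mem_ofPred_eq, refl2] at hp hq ht ⊢
        refine ⟨by omega, by omega, ?_⟩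
        rw [one_mul, ← key p (-q) r (by omega) (by omega), abs_neg]
        refine lt_of_eq_of_lt ?_ ht
        push_cast; congr 1; ring
      · refine ⟨1, one_pos, inf_map _ neg3_inj ?_ h⟩
        rintro ⟨p, q, r⟩ ⟨⟨-, ht⟩, hp, hq⟩
        simp only [mem_ofPred_eq, refl2] at hp hq ht ⊢
        refine ⟨by omega, by omega, ?_⟩
        rw [one_mul, ← key (-p) q r (by omega) (by omega), abs_neg]
        refine lt_of_eq_of_lt ?_ ht
        rw [← abs_neg]; push_cast; congr 1; ring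
  · right
    rcases infinite_union.1 h with h | h
    · left
      refine ⟨1, h.mono ?_⟩
      rintro ⟨p, q, r⟩ ⟨⟨h0, ht⟩, hq⟩
      simp only [mem_ofPred_eq] at hq ht h0 ⊢
      subst hq
      have hmax : max |p| |(0 : ℤ)| = |p| := by rw [abs_zero, max_eq_left (abs_nonneg p)]
      rw [hmax] at h0 ht
      refine ⟨abs_pos.1 h0, by simp, ?_⟩
      rw [one_mul]
      rw [Int.cast_abs] at ht
      exact ht
    · right
      refine ⟨1, inf_map _ swap_inj ?_ h⟩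
      rintro ⟨p, q, r⟩ ⟨⟨h0, ht⟩, hp⟩
      simp only [mem_ofPred_eq, Prod.fst_swap, Prod.snd_swap] at hp ht h0 ⊢
      subst hp
      have hmax : max |(0 : ℤ)| |q| = |q| := by rw [abs_zero, max_eq_right (abs_nonneg q)]
      rw [hmax] at h0 ht
      refine ⟨abs_pos.1 h0, by simp, ?_⟩
      rw [one_mul]
      rw [Int.cast_abs] at ht
      refine lt_of_eq_of_lt ?_ ht
      congr 1; ring

theorem dimH_E' {w : ℝ} (hw : 2 < w) : dimH (E' w) = ENNReal.ofReal (1 + 3 / (w + 1)) := by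
  refine le_antisymm ?_ ?_
  · refine (dimH_mono (E'_subset w)).trans ?_
    rw [dimH_union, dimH_swap, max_self]
    exact dimH_A1_le (by linarith)
  · by_contra hlt
    rw [not_le] at hlt
    have h1 := (le_dimH_W hw).trans (dimH_mono (W_subset w))
    rw [dimH_union, dimH_union, dimH_union, dimH_refl2, dimH_swap, max_self, max_self] at h1
    have h2 : dimH (A w (fun _ => {0})) < ENNReal.ofReal (1 + 3 / (w + 1)) := by
      refine (dimH_A0_le (by linarith)).trans_lt ?_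
      have hw1 : 0 < w + 1 := by linarith
      rw [ENNReal.ofReal_lt_ofReal_iff (by positivity)]
      gcongr
      norm_num
    exact absurd h1 (not_le.2 (max_lt hlt h2))

end Pool.Agent.Lib.MP_18f540_nt
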